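import Mathlib
import Pool.Agent.W529.Ta.Transvection

/-!
# Ideals of the symplectic Lie algebra and extremal elements
-/

set_option autoImplicit false

namespace Pool.Agent.W5h27.BR

open Module Pool.Agent.H204R3.SP Pool.Agent.H204R3.GP Pool.Agent.W529.Ta

variable {K : Type} [Field K] [CharZero K] {V : Type} [AddCommGroup V] [Module K V]
  {om : V →ₗ[K] V →ₗ[K] K} (halt : ∀ v, om v v = 0)

include halt

/-- The bracket of a skew operator with `SS om a b`. -/
theorem skew_SS {Y : Module.End K V} (hY : ∀ u w, om (Y u) w + om u (Y w) = 0) (a b : V) :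
    Y * SS om a b - SS om a b * Y = SS om (Y a) b + SS om a (Y b) := by
  refine LinearMap.ext fun x => ?_
  have h1 : om a (Y x) = -om (Y a) x := by linear_combination hY a x
  have h2 : om b (Y x) = -om (Y b) x := by linear_combination hY b x
  simp only [LinearMap.sub_apply, Module.End.mul_apply, LinearMap.add_apply, SS_apply, map_add,
    map_smul, h1, h2]
  module

variable (hnd : ∀ u, (∀ v, om v u = 0) → u = 0)

include hnd

theorem ex_one {u : V} (hu : u ≠ 0) : ∃ y, om y u = 1 := by
  by_contra hcon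
  push Not at hcon
  apply hu
  apply hnd
  intro v
  by_contra h
  apply hcon ((om v u)⁻¹ • v)
  rw [map_smul, LinearMap.smul_apply, smul_eq_mul, inv_mul_cancel₀ h]

theorem prop_of {u v : V} (hu : u ≠ 0) (h : ∀ x, om u x = 0 → om v x = 0) : ∃ s : K, v = s • u := by
  have hanti := alt_anti halt
  obtain ⟨y, hy⟩ := ex_one halt hnd hu
  have hy' : om u y = -1 := by rw [hanti, hy]
  refine ⟨-om v y, ?_⟩
  rw [← sub_eq_zero]
  apply hnd
  intro x
  rw [hanti]
  have h1 := h (x + om u x • y) (by rw [map_add, map_smul, hy']; simp)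
  rw [map_add, map_smul, smul_eq_mul] at h1
  rw [map_sub, map_smul, LinearMap.sub_apply, LinearMap.smul_apply, smul_eq_mul]
  linear_combination -h1

/-- A nonzero skew operator is not a scalar. -/
theorem ex_indep {Y : Module.End K V} (hY : ∀ u w, om (Y u) w + om u (Y w) = 0) (h0 : Y ≠ 0) :
    ∃ u, u ≠ 0 ∧ ∀ s : K, Y u ≠ s • u := by
  by_contra hcon
  push Not at hcon
  apply h0
  have h1 : ∀ v, ¬LinearIndependent K ![v, Y v] := by
    intro v hli
    obtain ⟨s, hs⟩ := hcon v (hli.ne_zero 0)
    have h2 := Fintype.linearIndependent_iff.1 hli ![-s, 1] (by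
      rw [Fin.sum_univ_two]
      simp [hs])
    have h3 := h2 1
    simp at h3
  obtain ⟨a, ha⟩ := LinearMap.exists_eq_smul_id_of_forall_notLinearIndependent h1
  have h2 : ∀ u, Y u = a • u := fun u => by rw [ha]; rfl
  refine LinearMap.ext fun u => ?_
  rw [LinearMap.zero_apply]
  by_cases hu : u = 0
  · rw [hu, map_zero]
  obtain ⟨y, hy⟩ := ex_one halt hnd hu
  have h3 := hY y u
  rw [h2, h2, map_smul, map_smul, LinearMap.smul_apply, hy] at h3
  have h4 : (2 : K) * a = 0 := by
    simp only [smul_eq_mul, mul_one] at h3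
    linear_combination h3
  rw [h2, (mul_eq_zero.1 h4).resolve_left two_ne_zero, zero_smul]

/-- The symplectic Lie algebra is simple. -/
theorem ideal_all (𝔦 : Submodule K (Module.End K V))
    (hi : ∀ a b, ∀ Y ∈ 𝔦, SS om a b * Y - Y * SS om a b ∈ 𝔦)
    (hsk : ∀ Y ∈ 𝔦, ∀ u w, om (Y u) w + om u (Y w) = 0) (h0 : 𝔦 ≠ ⊥) : ∀ a b, SS om a b ∈ 𝔦 := by
  have hanti := alt_anti halt
  have hsm : ∀ (s : K) (Z : Module.End K V), s ≠ 0 → s • Z ∈ 𝔦 → Z ∈ 𝔦 := by
    intro s Z hs h
    have h1 := 𝔦.smul_mem s⁻¹ h
    rwa [smul_smul, inv_mul_cancel₀ hs, one_smul] at h1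
  obtain ⟨Y, hY, hY0⟩ := Submodule.exists_mem_ne_zero_of_ne_bot h0
  obtain ⟨u, hu0, hu⟩ := ex_indep halt hnd (hsk Y hY) hY0
  have hv0 : Y u ≠ 0 := by
    intro h
    exact hu 0 (by rw [h, zero_smul])
  -- step 1
  have h1 : SS om u (Y u) ∈ 𝔦 := by
    have h2 := hi u u Y hY
    have h3 : SS om u u * Y - Y * SS om u u = (-2 : K) • SS om u (Y u) := by
      rw [← neg_sub, skew_SS halt (hsk Y hY), SS_comm om (Y u) u]
      module
    rw [h3] at h2
    exact hsm _ _ (by norm_num) h2
  -- step 2
  have h2 : SS om u u ∈ 𝔦 := by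
    by_cases huv : om u (Y u) = 0
    · obtain ⟨y, hy⟩ := ex_one halt hnd hv0
      have h3 := hi u y _ h1
      rw [SS_bracket om halt, hy, halt, huv, zero_smul, zero_smul, add_zero, add_zero,
        one_smul] at h3
      have h4 := 𝔦.sub_mem h3 (𝔦.smul_mem (om y u) h1)
      rwa [add_sub_cancel_left] at h4
    · have h3 := hi u u _ h1
      rw [SS_bracket om halt, halt, zero_smul, zero_add, add_zero, ← add_smul] at h3
      exact hsm _ _ (by
        rw [← two_mul]
        exact mul_ne_zero two_ne_zero huv) h3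
  obtain ⟨a, ha⟩ := ex_one halt hnd hu0
  -- step 3
  have h3 : ∀ x, SS om x u ∈ 𝔦 := by
    have h4 : ∀ b, om b u • SS om a u + SS om b u ∈ 𝔦 := by
      intro b
      have h5 := hi a b _ h2
      rw [SS_bracket om halt, ha] at h5
      have h6 : om b u • SS om a u + om b u • SS om a u + (1 : K) • SS om b u +
          (1 : K) • SS om b u = (2 : K) • (om b u • SS om a u + SS om b u) := by module
      rw [h6] at h5
      exact hsm _ _ two_ne_zero h5
    have h5 : SS om a u ∈ 𝔦 := by
      have h6 := h4 a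
      rw [ha, one_smul, ← two_smul K] at h6
      exact hsm _ _ two_ne_zero h6
    intro x
    have h6 := 𝔦.sub_mem (h4 x) (𝔦.smul_mem (om x u) h5)
    rwa [add_sub_cancel_left] at h6
  -- step 4
  have h4 : ∀ x, SS om x a ∈ 𝔦 := by
    have h5 : ∀ x, SS om x a + om x u • SS om a a ∈ 𝔦 := by
      intro x
      have h6 := hi x a _ (h3 a)
      rw [SS_comm om a u, SS_bracket om halt, ha, halt, one_smul, zero_smul, add_zero] at h6
      have h7 := 𝔦.sub_mem h6 (𝔦.smul_mem (om x a) (h3 a))
      rwa [add_sub_cancel_right] at h7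
    have h6 : SS om a a ∈ 𝔦 := by
      have h7 := h5 a
      rw [ha, one_smul, ← two_smul K] at h7
      exact hsm _ _ two_ne_zero h7
    intro x
    have h7 := 𝔦.sub_mem (h5 x) (𝔦.smul_mem (om x u) h6)
    rwa [add_sub_cancel_right] at h7
  intro x y
  have h5 := hi x a _ (by rw [SS_comm]; exact h3 y : SS om u y ∈ 𝔦)
  rw [SS_bracket om halt, ha, one_smul] at h5
  have h6 := 𝔦.sub_mem (𝔦.sub_mem (𝔦.sub_mem h5 (𝔦.smul_mem (om x y) (h3 a)))
    (𝔦.smul_mem (om x u) (by rw [SS_comm]; exact h4 y : SS om a y ∈ 𝔦)))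
    (𝔦.smul_mem (om a y) (h3 x))
  have h7 : SS om x y + om a y • SS om x u + om x u • SS om a y + om x y • SS om a u -
      om x y • SS om a u - om x u • SS om a y - om a y • SS om x u = SS om x y := by abel
  rwa [h7] at h6

/-- The skew operators are spanned by the `SS om a b`. -/
theorem skew_mem [FiniteDimensional K V] (𝔦 : Submodule K (Module.End K V))
    (hi : ∀ a b, SS om a b ∈ 𝔦) {Y : Module.End K V}
    (hY : ∀ u w, om (Y u) w + om u (Y w) = 0) : Y ∈ 𝔦 := by
  classical
  have hanti := alt_anti halt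
  let b := Module.finBasis K V
  have hinj : Function.Injective om := by
    rw [injective_iff_map_eq_zero]
    intro u hu
    apply hnd
    intro v
    rw [hanti, hu, LinearMap.zero_apply, neg_zero]
  have hsurj : Function.Surjective om := by
    have h1 : finrank K V = finrank K (V →ₗ[K] K) := (Subspace.dual_finrank_eq).symm
    exact (LinearMap.injective_iff_surjective_of_finrank_eq_finrank h1).1 hinj
  choose b' hb' using fun k => hsurj (b.coord k)
  have h1 : ∀ x, x = ∑ k, om (b' k) x • b k := by
    intro x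
    have h2 := b.sum_repr x
    rw [← h2]
    conv_rhs => rw [h2]
    refine Finset.sum_congr rfl fun k _ => ?_
    rw [hb']
    rfl
  have h2 : ∀ v, v = -∑ k, om (b k) v • b' k := by
    intro v
    rw [← sub_eq_zero]
    apply hnd
    intro z
    rw [map_sub, map_neg, map_sum]
    have h3 : ∑ k, om z (om (b k) v • b' k) = -om z v := by
      have h4 : ∀ k, om z (om (b k) v • b' k) = -(om (b' k) z * om (b k) v) := by
        intro k
        rw [map_smul, hanti z (b' k), smul_eq_mul]
        ring
      rw [Finset.sum_congr rfl fun k _ => h4 k, Finset.sum_neg_distrib]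
      congr 1
      conv_rhs => rw [h1 z]
      rw [map_sum, LinearMap.sum_apply]
      refine Finset.sum_congr rfl fun k _ => ?_
      rw [map_smul, LinearMap.smul_apply, smul_eq_mul]
    rw [h3]
    ring
  have h3 : Y = (1 / 2 : K) • ∑ k, SS om (b' k) (Y (b k)) := by
    refine LinearMap.ext fun x => ?_
    rw [LinearMap.smul_apply, LinearMap.sum_apply]
    simp only [SS_apply]
    rw [Finset.sum_add_distrib]
    have e1 : ∑ k, om (b' k) x • Y (b k) = Y x := by
      conv_rhs => rw [h1 x, map_sum]
      refine Finset.sum_congr rfl fun k _ => ?_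
      rw [map_smul]
    have e2 : ∑ k, om (Y (b k)) x • b' k = Y x := by
      conv_rhs => rw [h2 (Y x), ← Finset.sum_neg_distrib]
      refine Finset.sum_congr rfl fun k _ => ?_
      rw [← neg_smul]
      congr 1
      linear_combination hY (b k) x
    rw [e1, e2, ← two_smul K, smul_smul]
    norm_num
  rw [h3]
  exact 𝔦.smul_mem _ (𝔦.sum_mem fun k _ => hi _ _)

/-- Extremal elements have square zero. -/
theorem ext_sq {N : Module.End K V} (hN : ∀ u w, om (N u) w + om u (N w) = 0)
    (hext : ∀ u, ∃ κ : K, N * (N * SS om u u - SS om u u * N) -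
      (N * SS om u u - SS om u u * N) * N = κ • N) : N * N = 0 := by
  have hanti := alt_anti halt
  by_cases hN0 : N = 0
  · rw [hN0, mul_zero]
  -- the identity
  have hid : ∀ u, ∃ κ : K, ∀ x, (2 : K) • (om (N (N u)) x • u + om u x • N (N u) +
      (2 : K) • (om (N u) x • N u)) = κ • N x := by
    intro u
    obtain ⟨κ, hκ⟩ := hext u
    refine ⟨κ, fun x => ?_⟩
    have h1 : N * SS om u u - SS om u u * N = (2 : K) • SS om u (N u) := by
      rw [skew_SS halt hN, SS_comm om (N u) u, two_smul]
    have h2 : N * ((2 : K) • SS om u (N u)) - ((2 : K) • SS om u (N u)) * N =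
        (2 : K) • (SS om (N u) (N u) + SS om u (N (N u))) := by
      rw [mul_smul_comm, smul_mul_assoc, ← smul_sub, skew_SS halt hN]
    rw [h1, h2] at hκ
    have h3 := congrArg (fun Z : Module.End K V => Z x) hκ
    simp only [LinearMap.smul_apply, LinearMap.add_apply, SS_apply] at h3
    rw [← h3]
    module
  have key : ∀ u, u ≠ 0 → (∀ s : K, N u ≠ s • u) → om (N u) u ≠ 0 ∧
      (3 * om (N u) u) • N (N u) = om (N (N u)) (N u) • u := by
    intro u hu0 hu
    obtain ⟨κ, hκ⟩ := hid u
    have hNu : N u ≠ 0 := fun h => hu 0 (by rw [h, zero_smul])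
    have e1 : κ = 4 * om (N u) u := by
      have h1 := hκ u
      have h2 : om (N (N u)) u = 0 := by
        have h3 := hN (N u) u
        rw [halt, add_zero] at h3
        exact h3
      rw [h2, halt, zero_smul, zero_smul, zero_add, zero_add, smul_smul, smul_smul] at h1
      have h3 : (κ - 4 * om (N u) u) • N u = 0 := by
        rw [sub_smul, ← h1]
        module
      exact sub_eq_zero.1 ((smul_eq_zero.1 h3).resolve_right hNu)
    have e2 : om (N u) u ≠ 0 := by
      intro hq
      rw [hq, mul_zero] at e1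
      obtain ⟨s, hs⟩ := prop_of halt hnd hu0 (v := N u) (by
        intro x hx
        by_contra hne
        have h1 := hκ x
        rw [e1, hx, zero_smul, zero_smul, add_zero] at h1
        have h2 : om (N (N u)) x • u + (2 * om (N u) x) • N u = 0 := by
          have h3 : (2 : K) • (om (N (N u)) x • u + (2 * om (N u) x) • N u) = 0 := by
            rw [← h1]
            module
          exact (smul_eq_zero.1 h3).resolve_left two_ne_zero
        apply hu (-(2 * om (N u) x)⁻¹ * om (N (N u)) x)
        have h4 : (2 * om (N u) x) ≠ 0 := mul_ne_zero two_ne_zero hne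
        have h6 : (2 * om (N u) x) • N u = -(om (N (N u)) x • u) := eq_neg_of_add_eq_zero_right h2
        calc N u = (2 * om (N u) x)⁻¹ • ((2 * om (N u) x) • N u) := by
              rw [smul_smul, inv_mul_cancel₀ h4, one_smul]
          _ = (2 * om (N u) x)⁻¹ • -(om (N (N u)) x • u) := by rw [h6]
          _ = (-(2 * om (N u) x)⁻¹ * om (N (N u)) x) • u := by module)
      exact hu s hs
    refine ⟨e2, ?_⟩
    have h1 := hκ (N u)
    rw [e1, halt, zero_smul, smul_zero, add_zero, hanti u (N u)] at h1
    have h2 : (2 : K) • ((3 * om (N u) u) • N (N u)) = (2 : K) • (om (N (N u)) (N u) • u) := by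
      have h3 : (2 : K) • (om (N (N u)) (N u) • u) = (4 * om (N u) u) • N (N u) +
          (2 * om (N u) u) • N (N u) := by
        rw [← h1]
        module
      rw [h3]
      module
    exact smul_right_injective _ (two_ne_zero (α := K)) h2
  obtain ⟨u, hu0, hu⟩ := ex_indep halt hnd hN hN0
  have h1 : ∀ v, ¬LinearIndependent K ![v, (N * N) v] := by
    intro v hli
    have hv0 : v ≠ 0 := hli.ne_zero 0
    have h5 : ∃ s : K, N (N v) = s • v := by
      by_cases h6 : ∃ s : K, N v = s • v
      · obtain ⟨s, hs⟩ := h6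
        exact ⟨s * s, by rw [hs, map_smul, hs, smul_smul]⟩
      · push Not at h6
        obtain ⟨k1, k2⟩ := key v hv0 h6
        refine ⟨(3 * om (N v) v)⁻¹ * om (N (N v)) (N v), ?_⟩
        rw [mul_smul, ← k2, smul_smul, inv_mul_cancel₀ (mul_ne_zero three_ne_zero k1), one_smul]
    obtain ⟨s, hs⟩ := h5
    have h2 := Fintype.linearIndependent_iff.1 hli ![-s, 1] (by
      rw [Fin.sum_univ_two]
      simp [hs])
    have h3 := h2 1
    simp at h3
  obtain ⟨β, hβ⟩ := LinearMap.exists_eq_smul_id_of_forall_notLinearIndependent h1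
  have h2 : ∀ u, N (N u) = β • u := fun u => by
    have h3 := congrArg (fun Z : Module.End K V => Z u) hβ
    exact h3
  obtain ⟨k1, k2⟩ := key u hu0 hu
  rw [h2, map_smul, LinearMap.smul_apply, smul_smul, smul_eq_mul, hanti u (N u)] at k2
  have h3 : (4 * om (N u) u * β) • u = 0 := by
    have h4 : (4 * om (N u) u * β) • u = (3 * om (N u) u * β) • u - (β * -om (N u) u) • u := by
      module
    rw [h4, k2, sub_self]
  have h4 : β = 0 := by
    have h5 := (smul_eq_zero.1 h3).resolve_right hu0
    exact (mul_eq_zero.1 h5).resolve_left (mul_ne_zero (by norm_num) k1)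
  rw [hβ, h4, zero_smul]

end Pool.Agent.W5h27.BR
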