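import Mathlib
import Pool.Agent.W5h27.BR.Ext

/-!
# An element of rank one in a Lie algebra with full symplectic projections
-/

set_option autoImplicit false

namespace Pool.Agent.W5h27.BR

open Module Pool.Agent.H204R3.SP Pool.Agent.H204R3.GP Pool.Agent.W529.Ta

variable {K : Type} [Field K] {X : Type} [AddCommGroup X] [Module K X]

/-- The restrictions of the operators in `C` to `U`. -/
def img (C : Submodule K (Module.End K X)) (U : Submodule K X) : Submodule K (Module.End K U) where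
  carrier := {Z | ∃ Y ∈ C, ∀ x : U, ((Z x : U) : X) = Y x}
  zero_mem' := ⟨0, C.zero_mem, fun x => rfl⟩
  add_mem' := by
    rintro Z Z' ⟨Y, hY, h⟩ ⟨Y', hY', h'⟩
    refine ⟨Y + Y', C.add_mem hY hY', fun x => ?_⟩
    rw [LinearMap.add_apply, Submodule.coe_add, h, h', LinearMap.add_apply]
  smul_mem' := by
    rintro c Z ⟨Y, hY, h⟩
    refine ⟨c • Y, C.smul_mem c hY, fun x => ?_⟩
    rw [LinearMap.smul_apply, Submodule.coe_smul, h, LinearMap.smul_apply]

/-- The restriction of the form. -/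
def rom (ω : X →ₗ[K] X →ₗ[K] K) (U : Submodule K X) : U →ₗ[K] U →ₗ[K] K :=
  ω.compl₁₂ U.subtype U.subtype

theorem rom_apply (ω : X →ₗ[K] X →ₗ[K] K) (U : Submodule K X) (u v : U) :
    rom ω U u v = ω u v := rfl

variable [CharZero K] [FiniteDimensional K X] {I : Type} {E : I → Submodule K X}
  {ω : X →ₗ[K] X →ₗ[K] K} (halt : ∀ v, ω v v = 0) {L : Submodule K (Module.End K X)}
  (hst : ∀ j, ∀ Y ∈ L, ∀ u ∈ E j, Y u ∈ E j)
  (hbr : ∀ Y ∈ L, ∀ Z ∈ L, Y * Z - Z * Y ∈ L)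
  (hsk : ∀ Y ∈ L, ∀ u v, ω (Y u) v + ω u (Y v) = 0)
  (hnd : ∀ j, ∀ u ∈ E j, (∀ v ∈ E j, ω v u = 0) → u = 0)
  (hall : ∀ j, ∀ u ∈ E j, ∀ v ∈ E j, ∃ N ∈ L, ∀ x ∈ E j, N x = ω u x • v + ω v x • u)

include halt hst hsk hnd hall in
/-- An ideal which is nonzero on `E j` has the same restrictions to `E j`. -/
theorem real {C : Submodule K (Module.End K X)} (hCL : C ≤ L)
    (hC : ∀ Y ∈ L, ∀ Z ∈ C, Y * Z - Z * Y ∈ C) {j : I} (hj : ∃ Z ∈ C, ∃ x ∈ E j, Z x ≠ 0)
    {W : Module.End K X} (hW : W ∈ L) : ∃ Y ∈ C, ∀ x ∈ E j, Y x = W x := by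
  have halt' : ∀ v, rom ω (E j) v v = 0 := fun v => halt v
  have hnd' : ∀ u, (∀ v, rom ω (E j) v u = 0) → u = 0 := by
    intro u hu
    apply Subtype.ext
    exact hnd j u u.2 fun v hv => hu ⟨v, hv⟩
  have h1 : ∀ a b, SS (rom ω (E j)) a b ∈ img C (E j) := by
    refine ideal_all halt' hnd' (img C (E j)) ?_ ?_ ?_
    · rintro a b Z ⟨Y, hY, hYZ⟩
      obtain ⟨N, hN, hNx⟩ := hall j a a.2 b b.2
      refine ⟨N * Y - Y * N, hC N hN Y hY, fun x => ?_⟩
      have e1 : ∀ x : E j, ((SS (rom ω (E j)) a b x : E j) : X) = N x := by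
        intro x
        rw [hNx x x.2, SS_apply]
        rfl
      rw [LinearMap.sub_apply, Module.End.mul_apply, Module.End.mul_apply, Submodule.coe_sub, e1,
        hYZ, hYZ, e1]
      rfl
    · rintro Z ⟨Y, hY, hYZ⟩ u w
      rw [rom_apply, rom_apply, hYZ, hYZ]
      exact hsk Y (hCL hY) u w
    · obtain ⟨Z, hZ, x, hx, hZx⟩ := hj
      intro h0
      have h2 : Z.restrict (hst j Z (hCL hZ)) ∈ img C (E j) := ⟨Z, hZ, fun x => rfl⟩
      rw [h0, Submodule.mem_bot] at h2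
      apply hZx
      have h3 := congrArg (fun f : Module.End K (E j) => ((f ⟨x, hx⟩ : E j) : X)) h2
      exact h3
  obtain ⟨Y, hY, hYW⟩ := skew_mem halt' hnd' (img C (E j)) h1
    (Y := W.restrict (hst j W hW)) (fun u w => hsk W hW u w)
  refine ⟨Y, hY, fun x hx => ?_⟩
  exact (hYW ⟨x, hx⟩).symm

include halt hst hbr hsk hnd hall in
/-- **An element of rank one.** -/
theorem exists_rank_one (hE : ⨆ j, E j = ⊤) (i : I) (hi : E i ≠ ⊥) :
    ∃ N ∈ L, N * N = 0 ∧ finrank K ((E i).map N) = 1 := by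
  have hanti := alt_anti halt
  obtain ⟨v0, hv0, hv00⟩ := Submodule.exists_mem_ne_zero_of_ne_bot hi
  obtain ⟨x0, hx0, hx00⟩ : ∃ x ∈ E i, ω v0 x ≠ 0 := by
    by_contra hcon
    push Not at hcon
    apply hv00
    refine hnd i v0 hv0 fun v hv => ?_
    rw [hanti, hcon v hv, neg_zero]
  obtain ⟨N0, hN0, hN0x⟩ := hall i v0 hv0 v0 hv0
  have hext0 : ∀ Z : Module.End K X, (∀ j, ∀ x ∈ E j, Z x = 0) → Z = 0 := by
    intro Z hZ
    rw [← LinearMap.ker_eq_top, eq_top_iff, ← hE, iSup_le_iff]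
    exact fun j x hx => hZ j x hx
  -- the minimal ideal
  let S : Set (Submodule K (Module.End K X)) := {C | C ≤ L ∧
    (∀ Y ∈ L, ∀ Z ∈ C, Y * Z - Z * Y ∈ C) ∧ ∃ Z ∈ C, ∃ x ∈ E i, Z x ≠ 0}
  have hLS : L ∈ S := by
    refine ⟨le_refl _, hbr, N0, hN0, x0, hx0, ?_⟩
    rw [hN0x x0 hx0, ← add_smul, ← two_mul]
    exact smul_ne_zero (mul_ne_zero two_ne_zero hx00) hv00
  obtain ⟨C, ⟨hCL, hCi, Z1, hZ1, x1, hx1, hZx1⟩, hmin⟩ :=
    (wellFounded_lt : WellFounded ((· < ·) : Submodule K (Module.End K X) → _ → Prop)).has_min S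
      ⟨L, hLS⟩
  let D : I → Submodule K (Module.End K X) := fun j =>
    { carrier := {Z | Z ∈ C ∧ ∀ x ∈ E j, Z x = 0}
      zero_mem' := ⟨C.zero_mem, fun x _ => rfl⟩
      add_mem' := by
        rintro Z Z' ⟨h1, h2⟩ ⟨h3, h4⟩
        exact ⟨C.add_mem h1 h3, fun x hx => by rw [LinearMap.add_apply, h2 x hx, h4 x hx, add_zero]⟩
      smul_mem' := by
        rintro c Z ⟨h1, h2⟩
        exact ⟨C.smul_mem c h1, fun x hx => by rw [LinearMap.smul_apply, h2 x hx, smul_zero]⟩ }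
  have hDC : ∀ j, D j ≤ C := fun j Z hZ => hZ.1
  have hDi : ∀ j, ∀ Y ∈ L, ∀ Z ∈ D j, Y * Z - Z * Y ∈ D j := by
    intro j Y hY Z hZ
    refine ⟨hCi Y hY Z hZ.1, fun x hx => ?_⟩
    rw [LinearMap.sub_apply, Module.End.mul_apply, Module.End.mul_apply, hZ.2 x hx,
      hZ.2 _ (hst j Y hY x hx), map_zero, sub_zero]
  have hDj : ∀ j, (∃ Z ∈ C, ∃ x ∈ E j, Z x ≠ 0) → ∀ Z ∈ D j, ∀ x ∈ E i, Z x = 0 := by
    rintro j ⟨Z, hZ, x, hx, hZx⟩
    by_contra hcon
    push Not at hcon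
    obtain ⟨Z', hZ', x', hx', hZx'⟩ := hcon
    refine hmin (D j) ⟨(hDC j).trans hCL, hDi j, Z', hZ', x', hx', hZx'⟩ ?_
    refine lt_of_le_of_ne (hDC j) fun h => ?_
    rw [← h] at hZ
    exact hZx (hZ.2 x hx)
  have hzero : ∀ Z ∈ C, (∀ x ∈ E i, Z x = 0) → Z = 0 := by
    intro Z0 hZ0 hZ0i
    apply hext0
    intro j
    by_contra hcon
    push Not at hcon
    obtain ⟨x, hx, hZx⟩ := hcon
    obtain ⟨Y, hY, hYx⟩ := real halt hst hsk hnd hall ((hDC i).trans hCL) (hDi i) (j := j)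
      ⟨Z0, ⟨hZ0, hZ0i⟩, x, hx, hZx⟩ (hCL hZ1)
    have h1 : Z1 - Y ∈ D j := ⟨C.sub_mem hZ1 hY.1, fun x hx => by
      rw [LinearMap.sub_apply, hYx x hx, sub_self]⟩
    have h2 := hDj j ⟨Z0, hZ0, x, hx, hZx⟩ _ h1 x1 hx1
    rw [LinearMap.sub_apply, hY.2 x1 hx1, sub_zero] at h2
    exact hZx1 h2
  obtain ⟨N, hN, hNx⟩ := real halt hst hsk hnd hall hCL hCi (j := i) ⟨Z1, hZ1, x1, hx1, hZx1⟩ hN0
  have hNx' : ∀ x ∈ E i, N x = (2 * ω v0 x) • v0 := by
    intro x hx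
    rw [hNx x hx, hN0x x hx]
    module
  have hNv0 : N v0 = 0 := by rw [hNx' v0 hv0, halt, mul_zero, zero_smul]
  have hext : ∀ Y ∈ C, N * (N * Y - Y * N) - (N * Y - Y * N) * N = (-4 * ω v0 (Y v0)) • N := by
    intro Y hY
    rw [← sub_eq_zero]
    refine hzero _ ?_ fun x hx => ?_
    · have h1 := hCi N (hCL hN) Y hY
      exact C.sub_mem (hCi N (hCL hN) _ h1) (C.smul_mem _ hN)
    · have hYv0 : Y v0 ∈ E i := hst i Y (hCL hY) v0 hv0
      have hYx : Y x ∈ E i := hst i Y (hCL hY) x hx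
      simp only [LinearMap.sub_apply, Module.End.mul_apply, LinearMap.smul_apply]
      rw [hNx' x hx]
      simp only [map_sub, map_smul]
      rw [hNv0, hNx' _ hYx]
      simp only [map_sub, map_smul]
      rw [hNv0, hNx' _ hYv0]
      simp only [map_smul, map_zero]
      module
  refine ⟨N, hCL hN, ?_, ?_⟩
  · apply hext0
    intro j x hx
    by_cases hj : ∃ Z ∈ C, ∃ x ∈ E j, Z x ≠ 0
    swap
    · push Not at hj
      rw [Module.End.mul_apply, hj N hN x hx, map_zero]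
    have halt' : ∀ v, rom ω (E j) v v = 0 := fun v => halt v
    have hnd' : ∀ u, (∀ v, rom ω (E j) v u = 0) → u = 0 := by
      intro u hu
      apply Subtype.ext
      exact hnd j u u.2 fun v hv => hu ⟨v, hv⟩
    have hN' := hst j N (hCL hN)
    have h1 := ext_sq halt' hnd' (N := N.restrict hN') (fun u w => hsk N (hCL hN) u w) (by
      intro u
      obtain ⟨Y0, hY0, hY0x⟩ := hall j u u.2 u u.2
      obtain ⟨Y, hY, hYx⟩ := real halt hst hsk hnd hall hCL hCi hj hY0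
      refine ⟨-4 * ω v0 (Y v0), ?_⟩
      refine LinearMap.ext fun x => ?_
      apply Subtype.ext
      have e1 : ∀ x : E j, ((SS (rom ω (E j)) u u x : E j) : X) = Y x := by
        intro x
        rw [hYx x x.2, hY0x x x.2, SS_apply]
        rfl
      have e2 := congrArg (fun f : Module.End K X => f x) (hext Y hY)
      simp only [LinearMap.sub_apply, Module.End.mul_apply, LinearMap.smul_apply] at e2
      simp only [LinearMap.sub_apply, Module.End.mul_apply, LinearMap.smul_apply,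
        Submodule.coe_sub, Submodule.coe_smul, LinearMap.restrict_coe_apply, e1]
      exact e2)
    have h2 := congrArg (fun f : Module.End K (E j) => ((f ⟨x, hx⟩ : E j) : X)) h1
    exact h2
  · have h1 : (E i).map N = Submodule.span K {v0} := by
      apply le_antisymm
      · rintro _ ⟨x, hx, rfl⟩
        rw [hNx' x hx]
        exact Submodule.smul_mem _ _ (Submodule.mem_span_singleton_self v0)
      · rw [Submodule.span_singleton_le_iff_mem]
        refine ⟨(2 * ω v0 x0)⁻¹ • x0, (E i).smul_mem _ hx0, ?_⟩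
        rw [map_smul, hNx' x0 hx0, smul_smul, inv_mul_cancel₀ (mul_ne_zero two_ne_zero hx00),
          one_smul]
    rw [h1, finrank_span_singleton hv00]

end Pool.Agent.W5h27.BR
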