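import Mathlib
import Pool.Agent.TH118.CR.Irr
import Pool.Agent.TH118.CU.CoreNil

/-!
# Eigencomponents and orthogonal translates
-/

set_option autoImplicit false

namespace Pool.Agent.W5h27.BR

open Module Pool.Agent.H204R3.SP Pool.Agent.H204R3.GP Pool.Agent.W529.Ta

variable {K : Type} [Field K]

/-- The eigencomponents of an element of a stable subspace lie in the subspace. -/
theorem comp_mem {M : Type} [AddCommGroup M] [Module K M] (p : Submodule K M) (T : M →ₗ[K] M)
    (hT : ∀ x ∈ p, T x ∈ p) : ∀ (S : Finset K) (y : K → M), (∀ μ ∈ S, T (y μ) = μ • y μ) →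
      ∑ μ ∈ S, y μ ∈ p → ∀ μ ∈ S, y μ ∈ p := by
  classical
  intro S
  induction S using Finset.induction_on with
  | empty => intro y _ _ μ hμ; exact absurd hμ (Finset.notMem_empty μ)
  | insert a S ha ih =>
    intro y hy hs
    have h1 : ∑ μ ∈ S, (μ - a) • y μ ∈ p := by
      have h2 : T (∑ μ ∈ insert a S, y μ) - a • ∑ μ ∈ insert a S, y μ = ∑ μ ∈ S, (μ - a) • y μ := by
        rw [map_sum, Finset.smul_sum, ← Finset.sum_sub_distrib, Finset.sum_insert ha,
          hy a (Finset.mem_insert_self a S), sub_self, zero_add]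
        refine Finset.sum_congr rfl fun μ hμ => ?_
        rw [hy μ (Finset.mem_insert_of_mem hμ), sub_smul]
      rw [← h2]
      exact p.sub_mem (hT _ hs) (p.smul_mem _ hs)
    have h3 := ih (fun μ => (μ - a) • y μ) (fun μ hμ => by
      change T ((μ - a) • y μ) = μ • (μ - a) • y μ
      rw [map_smul, hy μ (Finset.mem_insert_of_mem hμ), smul_comm]) h1
    have h4 : ∀ μ ∈ S, y μ ∈ p := by
      intro μ hμ
      have h5 : μ - a ≠ 0 := sub_ne_zero.2 fun h => ha (h ▸ hμ)
      have h6 := p.smul_mem (μ - a)⁻¹ (h3 μ hμ)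
      change (μ - a)⁻¹ • (μ - a) • y μ ∈ p at h6
      rwa [smul_smul, inv_mul_cancel₀ h5, one_smul] at h6
    intro μ hμ
    rcases Finset.mem_insert.1 hμ with rfl | hμ
    · rw [Finset.sum_insert ha] at hs
      have h5 := p.sub_mem hs (p.sum_mem h4)
      rwa [add_sub_cancel_right] at h5
    · exact h4 μ hμ

variable [CharZero K] {V : Type} [AddCommGroup V] [Module K V] [FiniteDimensional K V]
  {G : Type} [Group G] (r : Representation K G V) (χ : G →* K) (om : V →ₗ[K] V →ₗ[K] K)
  (hsim : ∀ s u v, om (r s u) (r s v) = χ s * om u v)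
  (hirr : ∀ Δ : Subgroup G, Δ.FiniteIndex → ∀ W : Submodule K V,
    (∀ s ∈ Δ, ∀ u ∈ W, r s u ∈ W) → W = ⊥ ∨ W = ⊤)

include hsim hirr in
/-- If all translates of a subspace with a hyperbolic pair are equal or orthogonal to it then it is
the whole space. -/
theorem orth_top (P : Submodule K V) {e f : V} (he : e ∈ P) (hf : f ∈ P) (hef : om e f = 1)
    (hP : ∀ h : G, (∀ u ∈ P, r h u ∈ P) ∨ ∀ u ∈ P, ∀ v ∈ P, om (r h u) v = 0) : P = ⊤ := by
  classical
  have hmap : ∀ h : G, (∀ u ∈ P, r h u ∈ P) → ∀ u ∈ P, r h⁻¹ u ∈ P := by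
    intro h hh
    have h1 : P.map (r h) ≤ P := by
      rintro _ ⟨u, hu, rfl⟩
      exact hh u hu
    have hinj : Function.Injective (r h) := by
      intro u v huv
      rw [← rho_inv r h u, huv, rho_inv]
    have h2 : P.map (r h) = P := by
      refine Submodule.eq_of_le_of_finrank_eq h1 ?_
      exact (LinearEquiv.finrank_eq (Submodule.equivMapOfInjective (r h) hinj P)).symm
    intro u hu
    rw [← h2] at hu
    obtain ⟨v, hv, rfl⟩ := hu
    rw [rho_inv]
    exact hv
  let H : Subgroup G :=
    { carrier := {h | ∀ u ∈ P, r h u ∈ P}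
      one_mem' := by
        intro u hu
        rw [map_one, Module.End.one_apply]
        exact hu
      mul_mem' := by
        intro a b ha hb u hu
        rw [map_mul, Module.End.mul_apply]
        exact ha _ (hb u hu)
      inv_mem' := by
        intro a ha
        exact hmap a ha }
  have hχ : ∀ g : G, χ g ≠ 0 := fun g => Pool.Agent.W522.U.χne (χ := χ) g
  let v : G ⧸ H → V := fun q => r q.out e
  let w : G ⧸ H → V := fun q => r q.out f
  have hvw : ∀ q q', q ≠ q' → om (v q) (w q') = 0 := by
    intro q q' hqq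
    have h1 : om (v q) (w q') = χ q'.out * om (r (q'.out⁻¹ * q.out) e) f := by
      rw [← hsim, map_mul, Module.End.mul_apply, rho_inv']
    rcases hP (q'.out⁻¹ * q.out) with h2 | h2
    · exfalso
      apply hqq
      have h3 : QuotientGroup.mk (s := H) q'.out = QuotientGroup.mk q.out := by
        rw [QuotientGroup.eq]
        exact h2
      rw [QuotientGroup.out_eq', QuotientGroup.out_eq'] at h3
      exact h3.symm
    · rw [h1, h2 e he f hf, mul_zero]
  have hvv : ∀ q, om (v q) (w q) ≠ 0 := by
    intro q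
    change om (r q.out e) (r q.out f) ≠ 0
    rw [hsim, hef, mul_one]
    exact hχ _
  have hli : LinearIndependent K v := by
    rw [linearIndependent_iff']
    intro s c hc q hq
    have h1 := congrArg (fun x => om x (w q)) hc
    simp only [map_sum, LinearMap.sum_apply, map_smul, LinearMap.smul_apply, map_zero,
      LinearMap.zero_apply, smul_eq_mul] at h1
    rw [Finset.sum_eq_single q (fun q' _ hne => by rw [hvw q' q hne, mul_zero])
      (fun h => absurd hq h)] at h1
    exact (mul_eq_zero.1 h1).resolve_right (hvv q)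
  have hfin : Finite (G ⧸ H) := hli.finite
  have hH : H.FiniteIndex := Subgroup.finiteIndex_of_finite_quotient
  refine (hirr H hH P fun s hs u hu => hs u hu).resolve_left ?_
  rintro rfl
  rw [Submodule.mem_bot] at he
  rw [he, map_zero, LinearMap.zero_apply] at hef
  exact zero_ne_one hef

end Pool.Agent.W5h27.BR
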