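import Mathlib
import Pool.Agent.W5h27.BR.Comp

/-!
# The components of a symplectic operator with respect to a bireflection
-/

set_option autoImplicit false

namespace Pool.Agent.W5h27.BR

open Module Pool.Agent.H204R3.SP Pool.Agent.H204R3.GP Pool.Agent.W529.Ta

variable {K : Type} [Field K] [CharZero K] {V : Type} [AddCommGroup V] [Module K V]

/-- The component orthogonal to the plane of `e` and `f`. -/
def hh (om : V →ₗ[K] V →ₗ[K] K) (e f u : V) : V := u - om u f • e - om e u • f

section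

variable {om : V →ₗ[K] V →ₗ[K] K} (halt : ∀ v, om v v = 0) {e f : V} (hef : om e f = 1)

include halt hef

theorem e_hh (u : V) : om e (hh om e f u) = 0 := by
  unfold hh
  simp only [map_sub, map_smul, halt, hef, smul_eq_mul]
  ring

theorem hh_f (u : V) : om (hh om e f u) f = 0 := by
  unfold hh
  simp only [map_sub, map_smul, LinearMap.sub_apply, LinearMap.smul_apply, halt, hef, smul_eq_mul]
  ring

theorem f_hh (u : V) : om f (hh om e f u) = 0 := by
  rw [alt_anti halt, hh_f halt hef, neg_zero]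

theorem hh_e (u : V) : om (hh om e f u) e = 0 := by
  rw [alt_anti halt, e_hh halt hef, neg_zero]

theorem fe : om f e = -1 := by rw [alt_anti halt, hef]

omit halt hef in
theorem split_hh (om : V →ₗ[K] V →ₗ[K] K) (e f u : V) :
    u = hh om e f u + om u f • e + om e u • f := by
  unfold hh
  abel

end

section

variable {G : Type} [Group G] {r : Representation K G V} {χ : G →* K} {om : V →ₗ[K] V →ₗ[K] K}
  (halt : ∀ v, om v v = 0) (hsim : ∀ s u v, om (r s u) (r s v) = χ s * om u v)
  {γ : G} {ζ c : K} {e f : V} (hef : om e f = 1)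
  (hγ : ∀ u, r γ u = c • (u + ((ζ - 1) * om u f) • e + ((ζ⁻¹ - 1) * om e u) • f))

include halt hef hγ

theorem g_e : r γ e = (c * ζ) • e := by
  rw [hγ, halt, hef]
  module

theorem g_f : r γ f = (c * ζ⁻¹) • f := by
  rw [hγ, halt, hef]
  module

omit [CharZero K] halt hef in
theorem g_w {w : V} (h1 : om e w = 0) (h2 : om w f = 0) : r γ w = c • w := by
  rw [hγ, h1, h2]
  module

theorem g_ne : c ≠ 0 ∧ ζ ≠ 0 := by
  have he : e ≠ 0 := by
    rintro rfl
    rw [map_zero, LinearMap.zero_apply] at hef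
    exact zero_ne_one hef
  have h1 : r γ e ≠ 0 := by
    intro h
    apply he
    rw [← rho_inv r γ e, h, map_zero]
  rw [g_e halt hef hγ] at h1
  exact ⟨fun h => h1 (by rw [h, zero_mul, zero_smul]), fun h => h1 (by rw [h, mul_zero, zero_smul])⟩

include hsim in
theorem g_chi : χ γ = c * c := by
  have h1 := hsim γ e f
  obtain ⟨hc, hz⟩ := g_ne halt hef hγ
  rw [g_e halt hef hγ, g_f halt hef hγ, hef, mul_one] at h1
  rw [← h1]
  simp only [map_smul, LinearMap.smul_apply, smul_eq_mul, hef]
  field_simp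

/-- Conjugation. -/
noncomputable def cj (r : Representation K G V) (γ : G) : Module.End K V →ₗ[K] Module.End K V :=
  (LinearMap.mulLeft K (r γ)).comp (LinearMap.mulRight K (r γ⁻¹))

omit [CharZero K] halt hef hγ in
theorem cj_apply (Y : Module.End K V) : cj r γ Y = r γ * Y * r γ⁻¹ := by
  unfold cj
  rw [LinearMap.comp_apply, LinearMap.mulLeft_apply, LinearMap.mulRight_apply, mul_assoc]

include hsim in
theorem cj_SS {a b : V} {x y : K} (ha : r γ a = (c * x) • a) (hb : r γ b = (c * y) • b) :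
    cj r γ (SS om a b) = (x * y) • SS om a b := by
  obtain ⟨hc, hz⟩ := g_ne halt hef hγ
  have h1 := SS_rho r χ om hsim γ a b
  have h2 : SS om ((c * x) • a) ((c * y) • b) = (c * x * (c * y)) • SS om a b := by
    rw [SS_smul_right, SS_comm, SS_smul_right, SS_comm, smul_smul, mul_comm]
  rw [ha, hb, h2, g_chi halt hsim hef hγ] at h1
  rw [cj_apply]
  have h3 : (c * c) • (r γ * SS om a b * r γ⁻¹) = (c * c) • ((x * y) • SS om a b) := by
    rw [← h1, smul_smul]
    congr 1
    ring
  exact smul_right_injective _ (mul_ne_zero hc hc) h3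

/-- The five components. -/
noncomputable def cA (om : V →ₗ[K] V →ₗ[K] K) (e f : V) (Y : Module.End K V) : Module.End K V :=
  SS om e (hh om e f (Y f))

noncomputable def cB (om : V →ₗ[K] V →ₗ[K] K) (e f : V) (Y : Module.End K V) : Module.End K V :=
  -(SS om f (hh om e f (Y e)))

noncomputable def cC (om : V →ₗ[K] V →ₗ[K] K) (e f : V) (Y : Module.End K V) : Module.End K V :=
  (om (Y f) f / 2) • SS om e e

noncomputable def cD (om : V →ₗ[K] V →ₗ[K] K) (e f : V) (Y : Module.End K V) : Module.End K V :=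
  (-om e (Y e) / 2) • SS om f f

noncomputable def c0 (om : V →ₗ[K] V →ₗ[K] K) (e f : V) (Y : Module.End K V) : Module.End K V :=
  Y - cA om e f Y - cB om e f Y - cC om e f Y - cD om e f Y

include hsim in
theorem cj_A (Y : Module.End K V) : cj r γ (cA om e f Y) = ζ • cA om e f Y := by
  unfold cA
  rw [cj_SS halt hsim hef hγ (x := ζ) (y := 1) (g_e halt hef hγ)
    (by rw [mul_one]; exact g_w hγ (e_hh halt hef _) (hh_f halt hef _)), mul_one]

include hsim in
theorem cj_B (Y : Module.End K V) : cj r γ (cB om e f Y) = ζ⁻¹ • cB om e f Y := by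
  unfold cB
  rw [map_neg, cj_SS halt hsim hef hγ (x := ζ⁻¹) (y := 1) (g_f halt hef hγ)
    (by rw [mul_one]; exact g_w hγ (e_hh halt hef _) (hh_f halt hef _)), mul_one, smul_neg]

include hsim in
theorem cj_C (Y : Module.End K V) : cj r γ (cC om e f Y) = (ζ ^ 2) • cC om e f Y := by
  unfold cC
  rw [map_smul, cj_SS halt hsim hef hγ (x := ζ) (y := ζ) (g_e halt hef hγ) (g_e halt hef hγ),
    smul_comm, sq]

include hsim in
theorem cj_D (Y : Module.End K V) : cj r γ (cD om e f Y) = (ζ⁻¹ ^ 2) • cD om e f Y := by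
  unfold cD
  rw [map_smul, cj_SS halt hsim hef hγ (x := ζ⁻¹) (y := ζ⁻¹) (g_f halt hef hγ) (g_f halt hef hγ),
    smul_comm, sq]

omit hγ in
theorem c0_e (Y : Module.End K V) : c0 om e f Y e = om (Y e) f • e := by
  unfold c0 cA cB cC cD
  simp only [LinearMap.sub_apply, LinearMap.neg_apply, LinearMap.smul_apply, SS_apply, halt, hef,
    fe halt hef, hh_e halt hef]
  nth_rewrite 1 [split_hh om e f (Y e)]
  module

omit hγ in
theorem c0_f (Y : Module.End K V) : c0 om e f Y f = om e (Y f) • f := by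
  unfold c0 cA cB cC cD
  simp only [LinearMap.sub_apply, LinearMap.neg_apply, LinearMap.smul_apply, SS_apply, halt, hef,
    fe halt hef, hh_f halt hef]
  nth_rewrite 1 [split_hh om e f (Y f)]
  module

omit hγ hef in
theorem c0_sp (e f : V) {Y : Module.End K V} (hsp : ∀ u w, om (Y u) w + om u (Y w) = 0) :
    ∀ u w, om (c0 om e f Y u) w + om u (c0 om e f Y w) = 0 := by
  have hanti := alt_anti halt
  intro u w
  have h1 := hsp u w
  have hS : ∀ a b, om (SS om a b u) w + om u (SS om a b w) = 0 := by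
    intro a b
    simp only [SS_apply, map_add, map_smul, LinearMap.add_apply, LinearMap.smul_apply, smul_eq_mul]
    rw [hanti u b, hanti u a]
    ring
  unfold c0 cA cB cC cD
  have hA := hS e (hh om e f (Y f))
  have hB := hS f (hh om e f (Y e))
  have hC := hS e e
  have hD := hS f f
  simp only [LinearMap.sub_apply, LinearMap.neg_apply, LinearMap.smul_apply, map_sub, map_neg,
    map_smul, smul_eq_mul]
  linear_combination h1 - hA + hB - (om (Y f) f / 2) * hC - (-om e (Y e) / 2) * hD

theorem cj_0 {Y : Module.End K V} (hsp : ∀ u w, om (Y u) w + om u (Y w) = 0) :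
    cj r γ (c0 om e f Y) = c0 om e f Y := by
  have hanti := alt_anti halt
  have h0 := c0_sp halt e f hsp
  have h1 := c0_e halt hef Y
  have h2 := c0_f halt hef Y
  have h3 : om e (Y f) = -om (Y e) f := by
    have h4 := hsp e f
    linear_combination h4
  rw [h3] at h2
  generalize c0 om e f Y = Z at h0 h1 h2 ⊢
  generalize om (Y e) f = α at h1 h2
  have key : ∀ u, r γ (Z u) = Z (r γ u) := by
    intro u
    have e1 : om (Z u) f = α * om u f := by
      have h4 := h0 u f
      rw [h2, map_smul, smul_eq_mul] at h4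
      linear_combination h4
    have e2 : om e (Z u) = -(α * om e u) := by
      have h4 := h0 e u
      rw [h1, map_smul, LinearMap.smul_apply, smul_eq_mul] at h4
      linear_combination h4
    rw [hγ, hγ, map_smul, map_add, map_add, map_smul, map_smul, h1, h2, e1, e2]
    module
  rw [cj_apply]
  refine LinearMap.ext fun u => ?_
  rw [Module.End.mul_apply, Module.End.mul_apply, key, rho_inv']

end

section

variable {G : Type} [Group G] {r : Representation K G V} {χ : G →* K} {om : V →ₗ[K] V →ₗ[K] K}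
  (halt : ∀ v, om v v = 0) (hsim : ∀ s u v, om (r s u) (r s v) = χ s * om u v)
  {γ : G} {ζ c : K} {e f : V} (hef : om e f = 1)
  (hγ : ∀ u, r γ u = c • (u + ((ζ - 1) * om u f) • e + ((ζ⁻¹ - 1) * om e u) • f))
  (𝔥 : Submodule K (Module.End K V)) (hconj : ∀ s : G, ∀ X ∈ 𝔥, r s * X * r s⁻¹ ∈ 𝔥)

open Classical in
/-- The eigencomponents. -/
noncomputable def yy (om : V →ₗ[K] V →ₗ[K] K) (ζ : K) (e f : V) (Y : Module.End K V) (μ : K) :
    Module.End K V :=
  (if μ = 1 then c0 om e f Y else 0) + (if μ = ζ then cA om e f Y else 0) +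
    (if μ = ζ⁻¹ then cB om e f Y else 0) + (if μ = ζ ^ 2 then cC om e f Y else 0) +
    (if μ = ζ⁻¹ ^ 2 then cD om e f Y else 0)

include halt hsim hef hγ hconj in
theorem yy_mem {Y : Module.End K V} (hY : Y ∈ 𝔥) (hsp : ∀ u w, om (Y u) w + om u (Y w) = 0)
    {μ : K} (hμ : μ = ζ ∨ μ = ζ⁻¹ ∨ μ = ζ ^ 2 ∨ μ = ζ⁻¹ ^ 2) : yy om ζ e f Y μ ∈ 𝔥 := by
  classical
  have hif : ∀ (a μ : K) (Z : Module.End K V), cj r γ Z = a • Z →
      cj r γ (if μ = a then Z else 0) = μ • (if μ = a then Z else 0) := by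
    intro a μ Z hZ
    by_cases h : μ = a
    · rw [if_pos h, hZ, h]
    · rw [if_neg h, map_zero, smul_zero]
  let S : Finset K := {1, ζ, ζ⁻¹, ζ ^ 2, ζ⁻¹ ^ 2}
  refine comp_mem 𝔥 (cj r γ) (fun Z hZ => by rw [cj_apply]; exact hconj γ Z hZ) S
    (yy om ζ e f Y) ?_ ?_ μ ?_
  · intro μ _
    unfold yy
    rw [map_add, map_add, map_add, map_add, hif 1 μ _ (by
      rw [one_smul]; exact cj_0 halt hef hγ hsp), hif ζ μ _ (cj_A halt hsim hef hγ Y),
      hif ζ⁻¹ μ _ (cj_B halt hsim hef hγ Y), hif (ζ ^ 2) μ _ (cj_C halt hsim hef hγ Y),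
      hif (ζ⁻¹ ^ 2) μ _ (cj_D halt hsim hef hγ Y)]
    simp only [smul_add]
  · have h1 : ∑ μ ∈ S, yy om ζ e f Y μ = Y := by
      unfold yy
      have m1 : (1 : K) ∈ S := by simp [S]
      have m2 : ζ ∈ S := by simp [S]
      have m3 : ζ⁻¹ ∈ S := by simp [S]
      have m4 : ζ ^ 2 ∈ S := by simp [S]
      have m5 : ζ⁻¹ ^ 2 ∈ S := by simp [S]
      rw [Finset.sum_add_distrib, Finset.sum_add_distrib, Finset.sum_add_distrib,
        Finset.sum_add_distrib, Finset.sum_ite_eq', Finset.sum_ite_eq', Finset.sum_ite_eq',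
        Finset.sum_ite_eq', Finset.sum_ite_eq', if_pos m1, if_pos m2, if_pos m3, if_pos m4,
        if_pos m5]
      unfold c0
      abel
    rw [h1]
    exact hY
  · rcases hμ with rfl | rfl | rfl | rfl <;> simp [S]

end

end Pool.Agent.W5h27.BR
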