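import Mathlib
import Pool.Agent.W5h27.BR.Dec

/-!
# A nilpotent element of rank at most two from a bireflection
-/

set_option autoImplicit false

namespace Pool.Agent.W5h27.BR

open Module Pool.Agent.H204R3.SP Pool.Agent.H204R3.GP Pool.Agent.W529.Ta

variable {K : Type} [Field K] [CharZero K] {V : Type} [AddCommGroup V] [Module K V]
  {om : V →ₗ[K] V →ₗ[K] K} {𝔥 : Submodule K (Module.End K V)}

section

variable (halt : ∀ v, om v v = 0) {e f : V} (hef : om e f = 1)

include halt hef

theorem SS_e_zero {w : V} (hw : om w f = 0) (h : SS om e w = 0) : w = 0 := by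
  have h1 := congrArg (fun Z : Module.End K V => Z f) h
  simp only [SS_apply, hef, hw, LinearMap.zero_apply] at h1
  simpa using h1

theorem SS_f_zero {w : V} (hw : om e w = 0) (h : SS om f w = 0) : w = 0 := by
  have h1 := congrArg (fun Z : Module.End K V => Z e) h
  have h2 : om w e = 0 := by rw [alt_anti halt, hw, neg_zero]
  simp only [SS_apply, fe halt hef, h2, LinearMap.zero_apply] at h1
  simpa using h1

theorem SS_ee_ne : SS om e e ≠ 0 := by
  intro h
  have h1 := congrArg (fun Z : Module.End K V => om (Z f) f) h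
  simp only [SS_apply, hef, LinearMap.zero_apply, map_zero, map_add, map_smul,
    LinearMap.add_apply, LinearMap.smul_apply, smul_eq_mul] at h1
  norm_num at h1

theorem SS_ff_ne : SS om f f ≠ 0 := by
  intro h
  have h1 := congrArg (fun Z : Module.End K V => om e (Z e)) h
  simp only [SS_apply, fe halt hef, hef, LinearMap.zero_apply, map_zero, map_add, map_smul,
    smul_eq_mul] at h1
  norm_num at h1

variable (hz : ∀ a b, om a b = 0 → SS om a b ∈ 𝔥 → SS om a b = 0)
  (hsp : ∀ X ∈ 𝔥, ∀ u w, om (X u) w + om u (X w) = 0)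
  (hbr : ∀ X ∈ 𝔥, ∀ Y ∈ 𝔥, X * Y - Y * X ∈ 𝔥)
  (hA : ∀ Y ∈ 𝔥, SS om e (hh om e f (Y f)) + (-om e (Y e) / 2) • SS om f f ∈ 𝔥)
  (hB : ∀ Y ∈ 𝔥, -(SS om f (hh om e f (Y e))) + (om (Y f) f / 2) • SS om e e ∈ 𝔥)

include hz hA in
/-- The form of `Y f`. -/
theorem form_f {w0 : V} (h1 : om e w0 = 0) (h2 : om w0 f = 0)
    (hX : SS om e w0 + SS om f f ∈ 𝔥) {Y : Module.End K V} (hY : Y ∈ 𝔥) :
    hh om e f (Y f) = (-om e (Y e) / 2) • w0 := by
  have h3 := 𝔥.sub_mem (hA Y hY) (𝔥.smul_mem (-om e (Y e) / 2) hX)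
  have h4 : SS om e (hh om e f (Y f)) + (-om e (Y e) / 2) • SS om f f -
      (-om e (Y e) / 2) • (SS om e w0 + SS om f f) =
      SS om e (hh om e f (Y f) - (-om e (Y e) / 2) • w0) := by
    refine LinearMap.ext fun v => ?_
    simp only [LinearMap.sub_apply, LinearMap.add_apply, LinearMap.smul_apply, SS_apply, map_sub,
      map_smul]
    module
  rw [h4] at h3
  have h5 := hz _ _ (by rw [map_sub, map_smul, e_hh halt hef, h1, smul_zero, sub_zero]) h3
  have h6 := SS_e_zero halt hef (by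
    rw [map_sub, map_smul, LinearMap.sub_apply, LinearMap.smul_apply, hh_f halt hef, h2, smul_zero,
      sub_zero]) h5
  exact sub_eq_zero.1 h6

include hz hB in
/-- The form of `Y e`. -/
theorem form_e {w1 : V} (h1 : om e w1 = 0) (h2 : om w1 f = 0)
    (hX : SS om f w1 + SS om e e ∈ 𝔥) {Y : Module.End K V} (hY : Y ∈ 𝔥) :
    hh om e f (Y e) = -((om (Y f) f / 2) • w1) := by
  have h3 := 𝔥.sub_mem (hB Y hY) (𝔥.smul_mem (om (Y f) f / 2) hX)
  have h4 : -(SS om f (hh om e f (Y e))) + (om (Y f) f / 2) • SS om e e -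
      (om (Y f) f / 2) • (SS om f w1 + SS om e e) =
      SS om f (-(hh om e f (Y e)) - (om (Y f) f / 2) • w1) := by
    refine LinearMap.ext fun v => ?_
    simp only [LinearMap.sub_apply, LinearMap.add_apply, LinearMap.smul_apply, LinearMap.neg_apply,
      SS_apply, map_sub, map_smul, map_neg]
    module
  rw [h4] at h3
  have h7 : om f w1 = 0 := by rw [alt_anti halt, h2, neg_zero]
  have h5 := hz _ _ (by
    rw [map_sub, map_smul, map_neg, f_hh halt hef, h7, smul_zero, sub_zero, neg_zero]) h3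
  have h6 := SS_f_zero halt hef (by
    rw [map_sub, map_smul, map_neg, e_hh halt hef, h1, smul_zero, sub_zero, neg_zero]) h5
  have h8 := sub_eq_zero.1 h6
  rw [← h8, neg_neg]

include hz hsp hbr hA hB in
/-- The second generator. -/
theorem asym (heig : ∀ d : V, d ≠ 0 → ¬∀ Y ∈ 𝔥, ∃ a : K, Y d = a • d)
    (E1 : ∃ w0, om e w0 = 0 ∧ om w0 f = 0 ∧ SS om e w0 + SS om f f ∈ 𝔥) :
    ∃ w1, om e w1 = 0 ∧ om w1 f = 0 ∧ SS om f w1 + SS om e e ∈ 𝔥 := by
  by_contra hE2
  have hanti := alt_anti halt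
  -- the form of `Y e`
  have hYe : ∀ Y ∈ 𝔥, hh om e f (Y e) = 0 ∧ om (Y f) f = 0 := by
    intro Y hY
    have h3 := hB Y hY
    by_cases ha : om (Y f) f / 2 = 0
    · have ha' : om (Y f) f = 0 := by
        rcases div_eq_zero_iff.1 ha with h | h
        · exact h
        · norm_num at h
      rw [ha, zero_smul, add_zero, neg_mem_iff] at h3
      refine ⟨SS_f_zero halt hef (e_hh halt hef _) (hz _ _ (f_hh halt hef _) h3), ha'⟩
    · exfalso
      apply hE2
      refine ⟨-((om (Y f) f / 2)⁻¹ • hh om e f (Y e)), ?_, ?_, ?_⟩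
      · rw [map_neg, map_smul, e_hh halt hef, smul_zero, neg_zero]
      · rw [map_neg, map_smul, LinearMap.neg_apply, LinearMap.smul_apply, hh_f halt hef, smul_zero,
          neg_zero]
      · have h4 := 𝔥.smul_mem (om (Y f) f / 2)⁻¹ h3
        have h5 : (om (Y f) f / 2)⁻¹ • (-(SS om f (hh om e f (Y e))) +
            (om (Y f) f / 2) • SS om e e) =
            SS om f (-((om (Y f) f / 2)⁻¹ • hh om e f (Y e))) + SS om e e := by
          rw [smul_add, smul_smul, inv_mul_cancel₀ ha, one_smul]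
          congr 1
          refine LinearMap.ext fun v => ?_
          simp only [LinearMap.smul_apply, LinearMap.neg_apply, SS_apply, map_smul, map_neg]
          module
        rw [h5] at h4
        exact h4
  obtain ⟨w0, h1, h2, hX⟩ := E1
  have h2' : om f w0 = 0 := by rw [hanti, h2, neg_zero]
  have hw0 : w0 ≠ 0 := by
    rintro rfl
    rw [SS_zero_right, zero_add] at hX
    exact SS_ff_ne halt hef (hz _ _ (halt f) hX)
  apply heig w0 hw0
  intro Y hY
  set X := SS om e w0 + SS om f f with hXdef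
  have hXv : ∀ v, X v = om e v • w0 + om w0 v • e + (om f v • f + om f v • f) := fun v => rfl
  have hZ := hbr Y hY X hX
  have f1 := form_f halt hef hz hA h1 h2 hX hY
  have f2 := form_f halt hef hz hA h1 h2 hX hZ
  obtain ⟨g1, g2⟩ := hYe Y hY
  obtain ⟨g3, g4⟩ := hYe _ hZ
  set b := -om e (Y e) / 2
  set b' := -om e ((Y * X - X * Y) e) / 2
  have e1 : Y f = b • w0 + om e (Y f) • f := by
    have h3 := split_hh om e f (Y f)
    rw [f1, g2, zero_smul, add_zero] at h3
    exact h3
  have e2 : (Y * X - X * Y) f = b' • w0 + om e ((Y * X - X * Y) f) • f := by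
    have h3 := split_hh om e f ((Y * X - X * Y) f)
    rw [f2, g4, zero_smul, add_zero] at h3
    exact h3
  have e3 : X f = w0 := by
    rw [hXv, hef, h2, halt]
    module
  have e4 : X w0 = 0 := by
    rw [hXv, h1, halt, h2']
    module
  have e5 : (Y * X - X * Y) f = Y w0 - om e (Y f) • w0 := by
    rw [LinearMap.sub_apply, Module.End.mul_apply, Module.End.mul_apply, e3]
    nth_rewrite 1 [e1]
    rw [map_add, map_smul, map_smul, e4, e3, smul_zero, zero_add]
  have e6 : om e (Y w0) = 0 := by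
    have h3 := hsp Y hY e w0
    have h4 := split_hh om e f (Y e)
    rw [g1, zero_add] at h4
    rw [h4, map_add, map_smul, map_smul, LinearMap.add_apply, LinearMap.smul_apply,
      LinearMap.smul_apply, h1, h2', smul_zero, smul_zero, zero_add, zero_add] at h3
    exact h3
  have e7 : om e ((Y * X - X * Y) f) = 0 := by
    rw [e5, map_sub, map_smul, e6, h1, smul_zero, sub_zero]
  rw [e7, zero_smul, add_zero, e5] at e2
  refine ⟨b' + om e (Y f), ?_⟩
  rw [add_smul, ← e2]
  abel

omit halt hef in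
/-- The span of four vectors. -/
theorem mem4 {a b c d x : V} (hx : x ∈ Submodule.span K ({a, b, c, d} : Set V)) :
    ∃ s t u v : K, x = s • a + t • b + u • c + v • d := by
  obtain ⟨s, y1, hy1, e1⟩ := Submodule.mem_span_insert.1 hx
  obtain ⟨t, y2, hy2, e2⟩ := Submodule.mem_span_insert.1 hy1
  obtain ⟨u, y3, hy3, e3⟩ := Submodule.mem_span_insert.1 hy2
  obtain ⟨v, e4⟩ := Submodule.mem_span_singleton.1 hy3
  exact ⟨s, t, u, v, by rw [e1, e2, e3, ← e4]; abel⟩

end

variable [FiniteDimensional K V]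
  {G : Type} [Group G] (r : Representation K G V) (χ : G →* K)
  (hsim : ∀ s u v, om (r s u) (r s v) = χ s * om u v)
  (hirr : ∀ Δ : Subgroup G, Δ.FiniteIndex → ∀ W : Submodule K V,
    (∀ s ∈ Δ, ∀ u ∈ W, r s u ∈ W) → W = ⊥ ∨ W = ⊤)
  (hconj : ∀ s : G, ∀ X ∈ 𝔥, r s * X * r s⁻¹ ∈ 𝔥)

include hsim hirr hconj in
theorem p_top (P : Submodule K V) (hPst : ∀ Y ∈ 𝔥, ∀ u ∈ P, Y u ∈ P)
    (hPirr : ∀ Q ≤ P, (∀ Y ∈ 𝔥, ∀ u ∈ Q, Y u ∈ Q) → Q = ⊥ ∨ Q = P)
    (𝔫 : Set (Module.End K V)) (h𝔫 : ∀ N ∈ 𝔫, N ∈ 𝔥 ∧ ∀ v, N v ∈ P)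
    (hker : ∀ v, (∀ N ∈ 𝔫, N v = 0) → ∀ p ∈ P, om v p = 0) {e f : V} (he : e ∈ P) (hf : f ∈ P)
    (hef : om e f = 1) : P = ⊤ := by
  refine orth_top r χ om hsim hirr P he hf hef fun h => ?_
  have hst' : ∀ Y ∈ 𝔥, ∀ u ∈ P, Y (r h u) ∈ P.map (r h) := by
    intro Y hY u hu
    refine ⟨(r h⁻¹ * Y * r h) u, hPst _ ?_ u hu, ?_⟩
    · have h1 := hconj h⁻¹ Y hY
      rwa [inv_inv] at h1
    · rw [Module.End.mul_apply, Module.End.mul_apply, rho_inv']
  have hst : ∀ Y ∈ 𝔥, ∀ u ∈ P ⊓ P.map (r h), Y u ∈ P ⊓ P.map (r h) := by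
    rintro Y hY _ ⟨hu1, u, hu, rfl⟩
    exact ⟨hPst Y hY _ hu1, hst' Y hY u hu⟩
  rcases hPirr _ inf_le_left hst with h1 | h1
  · right
    intro u hu v hv
    refine hker _ (fun N hN => ?_) v hv
    have h2 : N (r h u) ∈ P ⊓ P.map (r h) := ⟨(h𝔫 N hN).2 _, hst' N (h𝔫 N hN).1 u hu⟩
    rw [h1] at h2
    exact (Submodule.mem_bot K).1 h2
  · left
    have h2 : P ≤ P.map (r h) := by
      have h3 : P ⊓ P.map (r h) ≤ P.map (r h) := inf_le_right
      rwa [h1] at h3
    have h3 : P = P.map (r h) := Submodule.eq_of_le_of_finrank_le h2 (Submodule.finrank_map_le _ _)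
    intro u hu
    rw [h3]
    exact ⟨u, hu, rfl⟩

include hsim hirr hconj in
/-- Both generators exist: the space has dimension four. -/
theorem both (halt : ∀ v, om v v = 0) {e f : V} (hef : om e f = 1)
    (hz : ∀ a b, om a b = 0 → SS om a b ∈ 𝔥 → SS om a b = 0)
    (hbr : ∀ X ∈ 𝔥, ∀ Y ∈ 𝔥, X * Y - Y * X ∈ 𝔥)
    (hA : ∀ Y ∈ 𝔥, SS om e (hh om e f (Y f)) + (-om e (Y e) / 2) • SS om f f ∈ 𝔥)
    (hB : ∀ Y ∈ 𝔥, -(SS om f (hh om e f (Y e))) + (om (Y f) f / 2) • SS om e e ∈ 𝔥)
    {w0 w1 : V} (h1 : om e w0 = 0) (h2 : om w0 f = 0) (hX : SS om e w0 + SS om f f ∈ 𝔥)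
    (h3 : om e w1 = 0) (h4 : om w1 f = 0) (hX' : SS om f w1 + SS om e e ∈ 𝔥) :
    finrank K V ≤ 4 := by
  classical
  have hanti := alt_anti halt
  have h2' : om f w0 = 0 := by rw [hanti, h2, neg_zero]
  have h1' : om w0 e = 0 := by rw [hanti, h1, neg_zero]
  have h4' : om f w1 = 0 := by rw [hanti, h4, neg_zero]
  have h3' : om w1 e = 0 := by rw [hanti, h3, neg_zero]
  have hfe := fe halt hef
  have hw0 : w0 ≠ 0 := by
    rintro rfl
    rw [SS_zero_right, zero_add] at hX
    exact SS_ff_ne halt hef (hz _ _ (halt f) hX)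
  set X := SS om e w0 + SS om f f with hXdef
  set X' := SS om f w1 + SS om e e with hX'def
  have hXv : ∀ v, X v = om e v • w0 + om w0 v • e + (om f v • f + om f v • f) := fun v => rfl
  have hX'v : ∀ v, X' v = om f v • w1 + om w1 v • f + (om e v • e + om e v • e) := fun v => rfl
  obtain ⟨τ, hτ⟩ : ∃ τ, τ = om w0 w1 := ⟨_, rfl⟩
  have hτ' : om w1 w0 = -τ := by rw [hanti, hτ]
  have x1 : X e = (-2 : K) • f := by rw [hXv, halt, h1', hfe]; module
  have x2 : X f = w0 := by rw [hXv, hef, h2, halt]; module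
  have x3 : X w0 = 0 := by rw [hXv, h1, halt, h2']; module
  have x4 : X w1 = τ • e := by rw [hXv, h3, ← hτ, h4']; module
  have y1 : X' e = (-1 : K) • w1 := by rw [hX'v, hfe, h3', halt]; module
  have y2 : X' f = (2 : K) • e := by rw [hX'v, halt, h4, hef]; module
  have y3 : X' w0 = (-τ) • f := by rw [hX'v, h2', hτ', h1]; module
  have y4 : X' w1 = 0 := by rw [hX'v, h4', halt, h3]; module
  have hff : ∀ Y ∈ 𝔥, hh om e f (Y f) = (-om e (Y e) / 2) • w0 := fun Y hY =>
    form_f halt hef hz hA h1 h2 hX hY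
  have hfe' : ∀ Y ∈ 𝔥, hh om e f (Y e) = -((om (Y f) f / 2) • w1) := fun Y hY =>
    form_e halt hef hz hB h3 h4 hX' hY
  -- the value of `τ`
  have hτ3 : τ ≠ 0 := by
    have hH := hbr X hX X' hX'
    have hZ := hbr _ hH X hX
    have e1 : (X * X' - X' * X) e = (4 - τ) • e := by
      rw [LinearMap.sub_apply, Module.End.mul_apply, Module.End.mul_apply, y1, x1, map_smul,
        map_smul, x4, y2]
      module
    have e2 : (X * X' - X' * X) f = (τ - 4) • f := by
      rw [LinearMap.sub_apply, Module.End.mul_apply, Module.End.mul_apply, y2, x2, map_smul,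
        x1, y3]
      module
    have e3 : (X * X' - X' * X) w0 = (-τ) • w0 := by
      rw [LinearMap.sub_apply, Module.End.mul_apply, Module.End.mul_apply, y3, x3, map_smul,
        x2, map_zero]
      module
    have e4 := hff _ hZ
    set H := X * X' - X' * X
    have e5 : (H * X - X * H) f = (4 - 2 * τ) • w0 := by
      rw [LinearMap.sub_apply, Module.End.mul_apply, Module.End.mul_apply, x2, e2, map_smul, x2,
        e3]
      module
    have e6 : (H * X - X * H) e = (16 - 4 * τ) • f := by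
      rw [LinearMap.sub_apply, Module.End.mul_apply, Module.End.mul_apply, x1, e1, map_smul,
        map_smul, x1, e2]
      module
    rw [e5, e6] at e4
    have e7 : hh om e f ((4 - 2 * τ) • w0) = (4 - 2 * τ) • w0 := by
      unfold hh
      rw [map_smul, map_smul, LinearMap.smul_apply, h1, h2]
      module
    rw [e7, map_smul, hef, smul_eq_mul, mul_one] at e4
    have e8 : (4 - 2 * τ) = -(16 - 4 * τ) / 2 := by
      have e9 : ((4 - 2 * τ) - -(16 - 4 * τ) / 2) • w0 = 0 := by rw [sub_smul, e4, sub_self]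
      exact sub_eq_zero.1 ((smul_eq_zero.1 e9).resolve_right hw0)
    intro h0
    rw [h0] at e8
    norm_num at e8
  let P : Submodule K V := Submodule.span K {e, f, w0, w1}
  have me : e ∈ P := Submodule.subset_span (by simp)
  have mf : f ∈ P := Submodule.subset_span (by simp)
  have m0 : w0 ∈ P := Submodule.subset_span (by simp)
  have m1 : w1 ∈ P := Submodule.subset_span (by simp)
  have hPX : ∀ u ∈ P, X u ∈ P := by
    intro u _
    rw [hXv]
    exact P.add_mem (P.add_mem (P.smul_mem _ m0) (P.smul_mem _ me))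
      (P.add_mem (P.smul_mem _ mf) (P.smul_mem _ mf))
  have hPX' : ∀ u ∈ P, X' u ∈ P := by
    intro u _
    rw [hX'v]
    exact P.add_mem (P.add_mem (P.smul_mem _ m1) (P.smul_mem _ mf))
      (P.add_mem (P.smul_mem _ me) (P.smul_mem _ me))
  have hPe : ∀ Y ∈ 𝔥, Y e ∈ P := by
    intro Y hY
    rw [split_hh om e f (Y e), hfe' Y hY]
    exact P.add_mem (P.add_mem (P.neg_mem (P.smul_mem _ m1)) (P.smul_mem _ me)) (P.smul_mem _ mf)
  have hPf : ∀ Y ∈ 𝔥, Y f ∈ P := by
    intro Y hY
    rw [split_hh om e f (Y f), hff Y hY]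
    exact P.add_mem (P.add_mem (P.smul_mem _ m0) (P.smul_mem _ me)) (P.smul_mem _ mf)
  have hP0 : ∀ Y ∈ 𝔥, Y w0 ∈ P := by
    intro Y hY
    have e1 : Y w0 = (Y * X - X * Y) f + X (Y f) := by
      rw [LinearMap.sub_apply, Module.End.mul_apply, Module.End.mul_apply, x2]
      abel
    rw [e1]
    exact P.add_mem (hPf _ (hbr Y hY X hX)) (hPX _ (hPf Y hY))
  have hP1 : ∀ Y ∈ 𝔥, Y w1 ∈ P := by
    intro Y hY
    have e1 : Y w1 = -((Y * X' - X' * Y) e + X' (Y e)) := by
      rw [LinearMap.sub_apply, Module.End.mul_apply, Module.End.mul_apply, y1, map_smul]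
      module
    rw [e1]
    exact P.neg_mem (P.add_mem (hPe _ (hbr Y hY X' hX')) (hPX' _ (hPe Y hY)))
  have hPst : ∀ Y ∈ 𝔥, ∀ u ∈ P, Y u ∈ P := by
    intro Y hY u hu
    obtain ⟨a1, a2, a3, a4, rfl⟩ := mem4 hu
    simp only [map_add, map_smul]
    exact P.add_mem (P.add_mem (P.add_mem (P.smul_mem _ (hPe Y hY)) (P.smul_mem _ (hPf Y hY)))
      (P.smul_mem _ (hP0 Y hY))) (P.smul_mem _ (hP1 Y hY))
  have hPirr : ∀ Q ≤ P, (∀ Y ∈ 𝔥, ∀ u ∈ Q, Y u ∈ Q) → Q = ⊥ ∨ Q = P := by
    intro Q hQP hQ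
    by_cases hQ0 : Q = ⊥
    · exact Or.inl hQ0
    right
    refine le_antisymm hQP ?_
    obtain ⟨x, hx, hx0⟩ := Submodule.exists_mem_ne_zero_of_ne_bot hQ0
    obtain ⟨a1, a2, a3, a4, rfl⟩ := mem4 (hQP hx)
    have n0 : w0 ∈ Q := by
      have s1 : X (a1 • e + a2 • f + a3 • w0 + a4 • w1) = (-2 * a1) • f + a2 • w0 + (a4 * τ) • e := by
        simp only [map_add, map_smul, x1, x2, x3, x4]
        module
      have s2 : X (X (a1 • e + a2 • f + a3 • w0 + a4 • w1)) =
          (-2 * a1) • w0 + (-2 * (a4 * τ)) • f := by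
        rw [s1]
        simp only [map_add, map_smul, x1, x2, x3]
        module
      have s3 : X (X (X (a1 • e + a2 • f + a3 • w0 + a4 • w1))) = (-2 * (a4 * τ)) • w0 := by
        rw [s2]
        simp only [map_add, map_smul, x2, x3]
        module
      have q1 := hQ X hX _ hx
      have q2 := hQ X hX _ q1
      have q3 := hQ X hX _ q2
      have hsc : ∀ a : K, a ≠ 0 → a • w0 ∈ Q → w0 ∈ Q := by
        intro a ha h
        have h5 := Q.smul_mem a⁻¹ h
        rwa [smul_smul, inv_mul_cancel₀ ha, one_smul] at h5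
      rw [s3] at q3
      rw [s2] at q2
      rw [s1] at q1
      by_cases c4 : a4 = 0
      · rw [c4, zero_mul, mul_zero, zero_smul, add_zero] at q2
        by_cases c1 : a1 = 0
        · rw [c4, c1, zero_mul, mul_zero, zero_smul, zero_smul, add_zero, zero_add] at q1
          by_cases c2 : a2 = 0
          · rw [c4, c1, c2, zero_smul, zero_smul, zero_smul, zero_add, zero_add, add_zero] at hx
            by_cases c3 : a3 = 0
            · exfalso
              apply hx0
              rw [c4, c1, c2, c3]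
              simp
            · exact hsc _ c3 hx
          · exact hsc _ c2 q1
        · exact hsc _ (mul_ne_zero (by norm_num) c1) q2
      · exact hsc _ (mul_ne_zero (by norm_num) (mul_ne_zero c4 hτ3)) q3
    have nf : f ∈ Q := by
      have q1 := hQ X' hX' _ n0
      rw [y3] at q1
      have h5 := Q.smul_mem (-τ)⁻¹ q1
      rwa [smul_smul, inv_mul_cancel₀ (neg_ne_zero.2 hτ3), one_smul] at h5
    have ne : e ∈ Q := by
      have q1 := hQ X' hX' _ nf
      rw [y2] at q1
      have h5 := Q.smul_mem (2 : K)⁻¹ q1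
      rwa [smul_smul, inv_mul_cancel₀ (by norm_num), one_smul] at h5
    have n1 : w1 ∈ Q := by
      have q1 := hQ X' hX' _ ne
      rw [y1] at q1
      have h5 := Q.smul_mem (-1 : K) q1
      rwa [smul_smul, neg_one_mul, neg_neg, one_smul] at h5
    rw [Submodule.span_le]
    rintro _ (rfl | rfl | rfl | rfl)
    · exact ne
    · exact nf
    · exact n0
    · exact n1
  have htop : P = ⊤ := by
    refine p_top r χ hsim hirr hconj P hPst hPirr {X, X'} ?_ ?_ me mf hef
    · rintro N (rfl | rfl)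
      · refine ⟨hX, fun v => ?_⟩
        rw [hXv]
        exact P.add_mem (P.add_mem (P.smul_mem _ m0) (P.smul_mem _ me))
          (P.add_mem (P.smul_mem _ mf) (P.smul_mem _ mf))
      · refine ⟨hX', fun v => ?_⟩
        rw [hX'v]
        exact P.add_mem (P.add_mem (P.smul_mem _ m1) (P.smul_mem _ mf))
          (P.add_mem (P.smul_mem _ me) (P.smul_mem _ me))
    · intro v hv p hp
      have v1 := hv X (by simp)
      have v2 := hv X' (by simp)
      rw [hXv] at v1
      rw [hX'v] at v2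
      have c1 : om f v = 0 := by
        have h5 := congrArg (fun x => om e x) v1
        simp only [map_add, map_smul, h1, halt, hef, smul_eq_mul, map_zero] at h5
        have h6 : 2 * om f v = 0 := by linear_combination h5
        exact (mul_eq_zero.1 h6).resolve_left (by norm_num)
      have c2 : om w0 v = 0 := by
        have h5 := congrArg (fun x => om x f) v1
        simp only [map_add, map_smul, LinearMap.add_apply, LinearMap.smul_apply, h2, halt, hef,
          smul_eq_mul, map_zero, LinearMap.zero_apply] at h5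
        linear_combination h5
      have c3 : om e v = 0 := by
        rw [c1, c2, zero_smul, zero_smul, add_zero, add_zero, add_zero] at v1
        exact (smul_eq_zero.1 v1).resolve_right hw0
      have c4 : om w1 v = 0 := by
        have h5 := congrArg (fun x => om e x) v2
        simp only [map_add, map_smul, h3, halt, hef, smul_eq_mul, map_zero] at h5
        linear_combination h5
      obtain ⟨a1, a2, a3, a4, rfl⟩ := mem4 hp
      rw [hanti]
      simp only [map_add, map_smul, LinearMap.add_apply, LinearMap.smul_apply, c1, c2, c3, c4,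
        neg_zero, smul_zero, add_zero]
  rw [← finrank_top K V, ← htop]
  have h5 := finrank_span_finset_le_card (R := K) ({e, f, w0, w1} : Finset V)
  have h6 : (({e, f, w0, w1} : Finset V) : Set V) = {e, f, w0, w1} := by simp
  rw [h6] at h5
  exact h5.trans Finset.card_le_four

end Pool.Agent.W5h27.BR
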