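import Mathlib
import Pool.Agent.W5h27.BR.Case

/-!
# Full symplectic Lie algebra from a bireflection
-/

set_option autoImplicit false

namespace Pool.Agent.W5h27.BR

open Module Pool.Agent.H204R3.SP Pool.Agent.H204R3.GP Pool.Agent.W529.Ta

variable {K : Type} [Field K] [CharZero K] {V : Type} [AddCommGroup V] [Module K V]

section yy

variable {om : V →ₗ[K] V →ₗ[K] K} {ζ : K} {e f : V} (Y : Module.End K V) (h0 : ζ ≠ 0)
  (h1 : ζ ≠ 1) (h2 : ζ ≠ -1)

include h1 h2 in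
omit [CharZero K] in
theorem zz : ζ * ζ ≠ 1 := by
  intro h
  have h3 : (ζ - 1) * (ζ + 1) = 0 := by linear_combination h
  rcases mul_eq_zero.1 h3 with h4 | h4
  · exact h1 (sub_eq_zero.1 h4)
  · exact h2 (eq_neg_of_add_eq_zero_left h4)

include h0 h1 h2

omit [CharZero K] in
theorem facts : ζ ≠ ζ⁻¹ ∧ ζ ≠ ζ ^ 2 ∧ (ζ = ζ⁻¹ ^ 2 ↔ ζ ^ 3 = 1) ∧ ζ⁻¹ ≠ 1 ∧ ζ⁻¹ ≠ ζ⁻¹ ^ 2 ∧
    (ζ⁻¹ = ζ ^ 2 ↔ ζ ^ 3 = 1) ∧ ζ ^ 2 ≠ 1 ∧ ζ⁻¹ ^ 2 ≠ 1 ∧ (ζ ^ 2 = ζ⁻¹ ^ 2 ↔ ζ ^ 4 = 1) := by
  have hzz := zz h1 h2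
  have hi : ζ⁻¹ * ζ = 1 := inv_mul_cancel₀ h0
  have hi2 : ζ⁻¹ ^ 2 * ζ ^ 2 = 1 := by rw [← mul_pow, hi, one_pow]
  refine ⟨fun h => hzz ?_, fun h => h1 ?_, ⟨fun h => ?_, fun h => ?_⟩, fun h => h1 ?_,
    fun h => h1 ?_, ⟨fun h => ?_, fun h => ?_⟩, fun h => hzz ?_, fun h => hzz ?_,
    ⟨fun h => ?_, fun h => ?_⟩⟩
  · nth_rewrite 1 [h]
    exact hi
  · have h5 : ζ * (ζ - 1) = 0 := by linear_combination -h
    exact sub_eq_zero.1 ((mul_eq_zero.1 h5).resolve_left h0)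
  · have h5 : ζ * ζ ^ 2 = 1 := by
      nth_rewrite 1 [h]
      exact hi2
    linear_combination h5
  · have h5 : ζ⁻¹ ^ 2 * ζ ^ 2 = ζ * ζ ^ 2 := by
      rw [hi2]
      linear_combination -h
    exact (mul_right_cancel₀ (pow_ne_zero 2 h0) h5).symm
  · rw [h, one_mul] at hi
    exact hi
  · have h5 : ζ⁻¹ * ζ ^ 2 = ζ⁻¹ ^ 2 * ζ ^ 2 := by rw [← h]
    rw [hi2] at h5
    have h6 : ζ⁻¹ * ζ ^ 2 = ζ := by rw [sq, ← mul_assoc, hi, one_mul]
    rw [h6] at h5
    exact h5
  · have h5 : ζ ^ 2 * ζ = 1 := by rw [← h]; exact hi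
    linear_combination h5
  · have h5 : ζ⁻¹ * ζ = ζ ^ 2 * ζ := by
      rw [hi]
      linear_combination -h
    exact mul_right_cancel₀ h0 h5
  · rw [← sq]
    exact h
  · rw [h, one_mul] at hi2
    rw [← sq]
    exact hi2
  · have h5 : ζ ^ 2 * ζ ^ 2 = 1 := by
      nth_rewrite 1 [h]
      exact hi2
    linear_combination h5
  · have h5 : ζ ^ 2 * ζ ^ 2 = ζ⁻¹ ^ 2 * ζ ^ 2 := by
      rw [hi2]
      linear_combination h
    exact mul_right_cancel₀ (pow_ne_zero 2 h0) h5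

theorem yy_zeta3 (h3 : ζ ^ 3 = 1) : yy om ζ e f Y ζ = cA om e f Y + cD om e f Y := by
  obtain ⟨f1, f2, f3, f4, f5, f6, f7, f8, f9⟩ := facts h0 h1 h2
  unfold yy
  rw [if_neg h1, if_pos rfl, if_neg f1, if_neg f2, if_pos (f3.2 h3)]
  abel

theorem yy_zinv3 (h3 : ζ ^ 3 = 1) : yy om ζ e f Y ζ⁻¹ = cB om e f Y + cC om e f Y := by
  obtain ⟨f1, f2, f3, f4, f5, f6, f7, f8, f9⟩ := facts h0 h1 h2
  unfold yy
  rw [if_neg f4, if_neg f1.symm, if_pos rfl, if_pos (f6.2 h3), if_neg f5]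
  abel

theorem yy_zeta (h3 : ζ ^ 3 ≠ 1) : yy om ζ e f Y ζ = cA om e f Y := by
  obtain ⟨f1, f2, f3, f4, f5, f6, f7, f8, f9⟩ := facts h0 h1 h2
  unfold yy
  rw [if_neg h1, if_pos rfl, if_neg f1, if_neg f2, if_neg (fun h => h3 (f3.1 h))]
  abel

theorem yy_zinv (h3 : ζ ^ 3 ≠ 1) : yy om ζ e f Y ζ⁻¹ = cB om e f Y := by
  obtain ⟨f1, f2, f3, f4, f5, f6, f7, f8, f9⟩ := facts h0 h1 h2
  unfold yy
  rw [if_neg f4, if_neg f1.symm, if_pos rfl, if_neg (fun h => h3 (f6.1 h)), if_neg f5]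
  abel

theorem yy_sq4 (h3 : ζ ^ 3 ≠ 1) (h4 : ζ ^ 4 = 1) :
    yy om ζ e f Y (ζ ^ 2) = cC om e f Y + cD om e f Y := by
  obtain ⟨f1, f2, f3, f4, f5, f6, f7, f8, f9⟩ := facts h0 h1 h2
  unfold yy
  rw [if_neg f7, if_neg f2.symm, if_neg (fun h => h3 (f6.1 h.symm)), if_pos rfl, if_pos (f9.2 h4)]
  abel

theorem yy_sq (h3 : ζ ^ 3 ≠ 1) (h4 : ζ ^ 4 ≠ 1) : yy om ζ e f Y (ζ ^ 2) = cC om e f Y := by
  obtain ⟨f1, f2, f3, f4, f5, f6, f7, f8, f9⟩ := facts h0 h1 h2
  unfold yy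
  rw [if_neg f7, if_neg f2.symm, if_neg (fun h => h3 (f6.1 h.symm)), if_pos rfl,
    if_neg (fun h => h4 (f9.1 h))]
  abel

theorem yy_isq (h3 : ζ ^ 3 ≠ 1) (h4 : ζ ^ 4 ≠ 1) : yy om ζ e f Y (ζ⁻¹ ^ 2) = cD om e f Y := by
  obtain ⟨f1, f2, f3, f4, f5, f6, f7, f8, f9⟩ := facts h0 h1 h2
  unfold yy
  rw [if_neg f8, if_neg (fun h => h3 (f3.1 h.symm)), if_neg f5.symm,
    if_neg (fun h => h4 (f9.1 h.symm)), if_pos rfl]
  abel

end yy

variable {om : V →ₗ[K] V →ₗ[K] K} {𝔥 : Submodule K (Module.End K V)} [FiniteDimensional K V]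
  {G : Type} [Group G] (r : Representation K G V) (χ : G →* K)

theorem eig_false (hirr : ∀ Δ : Subgroup G, Δ.FiniteIndex → ∀ W : Submodule K V,
    (∀ s ∈ Δ, ∀ u ∈ W, r s u ∈ W) → W = ⊥ ∨ W = ⊤)
    (hconj : ∀ s : G, ∀ X ∈ 𝔥, r s * X * r s⁻¹ ∈ 𝔥)
    (hns : ∃ Y ∈ 𝔥, ¬∃ a : K, ∀ u, Y u = a • u) (d : V) (hd : d ≠ 0) :
    ¬∀ Y ∈ 𝔥, ∃ a : K, Y d = a • d := by
  intro h
  obtain ⟨Y, hY, hna⟩ := hns
  have hSI : Pool.Agent.W522.U.SI r (⊤ : Submodule K V) := by
    refine ⟨?_, Pool.Agent.W522.U.pot_top, ?_⟩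
    · intro h1
      apply hd
      have h2 : d ∈ (⊤ : Submodule K V) := Submodule.mem_top
      rw [h1] at h2
      exact (Submodule.mem_bot K).1 h2
    · rintro W - ⟨Δ, hΔ, hW⟩
      exact hirr Δ hΔ W hW
  obtain ⟨a, ha⟩ := Pool.Agent.TH118.CR.scalar_of_vector hSI 𝔥 hconj Submodule.mem_top hd h Y hY
  exact hna ⟨a, fun u => ha u Submodule.mem_top⟩

/-- **The element of rank at most two.** -/
theorem exists_small (halt : ∀ v, om v v = 0)
    (hsim : ∀ s u v, om (r s u) (r s v) = χ s * om u v)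
    (hirr : ∀ Δ : Subgroup G, Δ.FiniteIndex → ∀ W : Submodule K V,
      (∀ s ∈ Δ, ∀ u ∈ W, r s u ∈ W) → W = ⊥ ∨ W = ⊤)
    (hbr : ∀ X ∈ 𝔥, ∀ Y ∈ 𝔥, X * Y - Y * X ∈ 𝔥)
    (hconj : ∀ s : G, ∀ X ∈ 𝔥, r s * X * r s⁻¹ ∈ 𝔥)
    (hsp : ∀ X ∈ 𝔥, ∀ u w, om (X u) w + om u (X w) = 0)
    (hns : ∃ Y ∈ 𝔥, ¬∃ a : K, ∀ u, Y u = a • u)
    {γ : G} {ζ c : K} {e f : V} (hef : om e f = 1)
    (hγ : ∀ u, r γ u = c • (u + ((ζ - 1) * om u f) • e + ((ζ⁻¹ - 1) * om e u) • f))
    (h1 : ζ ≠ 1) (h2 : ζ ≠ -1) (hd : 3 ≤ finrank K V) (hd3 : ζ ^ 3 = 1 → 5 ≤ finrank K V) :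
    ∃ a b, om a b = 0 ∧ SS om a b ≠ 0 ∧ SS om a b ∈ 𝔥 := by
  classical
  by_contra hno
  push Not at hno
  have hz : ∀ a b, om a b = 0 → SS om a b ∈ 𝔥 → SS om a b = 0 := by
    intro a b hab hm
    by_contra h
    exact hno a b hab h hm
  have hanti := alt_anti halt
  obtain ⟨hc, h0⟩ := g_ne halt hef hγ
  have heig := eig_false r hirr hconj hns
  have he0 : e ≠ 0 := by
    rintro rfl
    rw [map_zero, LinearMap.zero_apply] at hef
    exact zero_ne_one hef
  by_cases h3 : ζ ^ 3 = 1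
  · -- order three
    have hA : ∀ Y ∈ 𝔥, SS om e (hh om e f (Y f)) + (-om e (Y e) / 2) • SS om f f ∈ 𝔥 := by
      intro Y hY
      have h4 := yy_mem halt hsim hef hγ 𝔥 hconj hY (hsp Y hY) (μ := ζ) (Or.inl rfl)
      rw [yy_zeta3 Y h0 h1 h2 h3] at h4
      exact h4
    have hB : ∀ Y ∈ 𝔥, -(SS om f (hh om e f (Y e))) + (om (Y f) f / 2) • SS om e e ∈ 𝔥 := by
      intro Y hY
      have h4 := yy_mem halt hsim hef hγ 𝔥 hconj hY (hsp Y hY) (μ := ζ⁻¹) (Or.inr (Or.inl rfl))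
      rw [yy_zinv3 Y h0 h1 h2 h3] at h4
      exact h4
    -- the symmetric data
    have hef' : om f (-e) = 1 := by rw [map_neg, fe halt hef, neg_neg]
    have hhs : ∀ u, hh om f (-e) u = hh om e f u := by
      intro u
      unfold hh
      rw [map_neg, hanti f u, hanti u e]
      module
    have hA' : ∀ Y ∈ 𝔥, SS om f (hh om f (-e) (Y (-e))) +
        (-om f (Y f) / 2) • SS om (-e) (-e) ∈ 𝔥 := by
      intro Y hY
      have h4 := hB Y hY
      have h5 : SS om f (hh om f (-e) (Y (-e))) + (-om f (Y f) / 2) • SS om (-e) (-e) =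
          -(SS om f (hh om e f (Y e))) + (om (Y f) f / 2) • SS om e e := by
        rw [hhs]
        have h6 : hh om e f (Y (-e)) = -hh om e f (Y e) := by
          unfold hh
          simp only [map_neg, LinearMap.neg_apply]
          module
        rw [h6, hanti f (Y f)]
        refine LinearMap.ext fun v => ?_
        simp only [LinearMap.add_apply, LinearMap.smul_apply, LinearMap.neg_apply, SS_apply,
          map_neg]
        module
      rw [h5]
      exact h4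
    have hB' : ∀ Y ∈ 𝔥, -(SS om (-e) (hh om f (-e) (Y f))) +
        (om (Y (-e)) (-e) / 2) • SS om f f ∈ 𝔥 := by
      intro Y hY
      have h4 := hA Y hY
      have h5 : -(SS om (-e) (hh om f (-e) (Y f))) + (om (Y (-e)) (-e) / 2) • SS om f f =
          SS om e (hh om e f (Y f)) + (-om e (Y e) / 2) • SS om f f := by
        rw [hhs, map_neg, map_neg, map_neg, LinearMap.neg_apply, hanti (Y e) e]
        refine LinearMap.ext fun v => ?_
        simp only [LinearMap.add_apply, LinearMap.smul_apply, LinearMap.neg_apply, SS_apply,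
          map_neg]
        module
      rw [h5]
      exact h4
    have key1 : (∃ w0, om e w0 = 0 ∧ om w0 f = 0 ∧ SS om e w0 + SS om f f ∈ 𝔥) →
        ∃ w1, om e w1 = 0 ∧ om w1 f = 0 ∧ SS om f w1 + SS om e e ∈ 𝔥 :=
      asym halt hef hz hsp hbr hA hB heig
    have key2 : (∃ w1, om e w1 = 0 ∧ om w1 f = 0 ∧ SS om f w1 + SS om e e ∈ 𝔥) →
        ∃ w0, om e w0 = 0 ∧ om w0 f = 0 ∧ SS om e w0 + SS om f f ∈ 𝔥 := by
      rintro ⟨w1, g1, g2, g3⟩
      have g1' : om w1 (-e) = 0 := by rw [map_neg, hanti w1 e, g1, neg_zero, neg_zero]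
      have g2' : om f w1 = 0 := by rw [hanti, g2, neg_zero]
      have hSe : SS om (-e) (-e) = SS om e e := by
        refine LinearMap.ext fun v => ?_
        simp only [SS_apply, map_neg, LinearMap.neg_apply]
        module
      obtain ⟨w0, g4, g5, g6⟩ := asym halt hef' hz hsp hbr hA' hB' heig
        ⟨w1, g2', g1', by rw [hSe]; exact g3⟩
      refine ⟨-w0, ?_, ?_, ?_⟩
      · have h7 : om w0 e = 0 := by
          rw [map_neg, neg_eq_zero] at g5
          exact g5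
        rw [map_neg, hanti e w0, h7, neg_zero, neg_zero]
      · rw [map_neg, LinearMap.neg_apply, hanti, g4, neg_zero, neg_zero]
      · have h5 : SS om e (-w0) + SS om f f = SS om (-e) w0 + SS om f f := by
          refine LinearMap.ext fun v => ?_
          simp only [LinearMap.add_apply, SS_apply, map_neg, LinearMap.neg_apply]
          module
        rw [h5]
        exact g6
    have key3 : (∃ w0, om e w0 = 0 ∧ om w0 f = 0 ∧ SS om e w0 + SS om f f ∈ 𝔥) ∨
        ∃ w1, om e w1 = 0 ∧ om w1 f = 0 ∧ SS om f w1 + SS om e e ∈ 𝔥 := by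
      by_contra hcon
      push Not at hcon
      obtain ⟨n1, n2⟩ := hcon
      apply heig e he0
      intro Y hY
      have b0 : -om e (Y e) / 2 = 0 := by
        by_contra hb
        have h4 := 𝔥.smul_mem (-om e (Y e) / 2)⁻¹ (hA Y hY)
        rw [smul_add, smul_smul, inv_mul_cancel₀ hb, one_smul, ← SS_smul_right] at h4
        exact n1 _ (by rw [map_smul, e_hh halt hef, smul_zero])
          (by rw [map_smul, LinearMap.smul_apply, hh_f halt hef, smul_zero]) h4
      have a0 : om (Y f) f / 2 = 0 := by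
        by_contra hb
        have h4 := 𝔥.smul_mem (om (Y f) f / 2)⁻¹ (hB Y hY)
        rw [smul_add, smul_smul, inv_mul_cancel₀ hb, one_smul, smul_neg, ← neg_smul,
          ← SS_smul_right] at h4
        exact n2 _ (by rw [map_smul, e_hh halt hef, smul_zero])
          (by rw [map_smul, LinearMap.smul_apply, hh_f halt hef, smul_zero]) h4
      have h4 := hB Y hY
      rw [a0, zero_smul, add_zero, neg_mem_iff] at h4
      have h5 := SS_f_zero halt hef (e_hh halt hef _) (hz _ _ (f_hh halt hef _) h4)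
      have h6 : om e (Y e) = 0 := by
        have h7 : om e (Y e) = -2 * (-om e (Y e) / 2) := by ring
        rw [h7, b0, mul_zero]
      refine ⟨om (Y e) f, ?_⟩
      have h8 := split_hh om e f (Y e)
      rw [h5, h6, zero_smul, add_zero, zero_add] at h8
      exact h8
    have hd4 : finrank K V ≤ 4 := by
      rcases key3 with h | h
      · obtain ⟨w1, g1, g2, g3⟩ := key1 h
        obtain ⟨w0, g4, g5, g6⟩ := h
        exact both r χ hsim hirr hconj halt hef hz hbr hA hB g4 g5 g6 g1 g2 g3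
      · obtain ⟨w0, g1, g2, g3⟩ := key2 h
        obtain ⟨w1, g4, g5, g6⟩ := h
        exact both r χ hsim hirr hconj halt hef hz hbr hA hB g1 g2 g3 g4 g5 g6
    have := hd3 h3
    omega
  · -- order different from three
    have hYf : ∀ Y ∈ 𝔥, hh om e f (Y f) = 0 := by
      intro Y hY
      have h4 := yy_mem halt hsim hef hγ 𝔥 hconj hY (hsp Y hY) (μ := ζ) (Or.inl rfl)
      rw [yy_zeta Y h0 h1 h2 h3] at h4
      exact SS_e_zero halt hef (hh_f halt hef _) (hz _ _ (e_hh halt hef _) h4)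
    have hYe : ∀ Y ∈ 𝔥, hh om e f (Y e) = 0 := by
      intro Y hY
      have h4 := yy_mem halt hsim hef hγ 𝔥 hconj hY (hsp Y hY) (μ := ζ⁻¹) (Or.inr (Or.inl rfl))
      rw [yy_zinv Y h0 h1 h2 h3] at h4
      unfold cB at h4
      rw [neg_mem_iff] at h4
      exact SS_f_zero halt hef (e_hh halt hef _) (hz _ _ (f_hh halt hef _) h4)
    obtain ⟨Y1, hY1, hb1⟩ : ∃ Y ∈ 𝔥, om e (Y e) ≠ 0 := by
      by_contra hcon
      push Not at hcon
      apply heig e he0
      intro Y hY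
      refine ⟨om (Y e) f, ?_⟩
      have h8 := split_hh om e f (Y e)
      rw [hYe Y hY, hcon Y hY, zero_smul, add_zero, zero_add] at h8
      exact h8
    have hb1' : -om e (Y1 e) / 2 ≠ 0 := div_ne_zero (neg_ne_zero.2 hb1) (by norm_num)
    have hff : SS om f f ∉ 𝔥 := fun h => SS_ff_ne halt hef (hz _ _ (halt f) h)
    by_cases h4 : ζ ^ 4 = 1
    swap
    · have h5 := yy_mem halt hsim hef hγ 𝔥 hconj hY1 (hsp Y1 hY1) (μ := ζ⁻¹ ^ 2)
        (Or.inr (Or.inr (Or.inr rfl)))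
      rw [yy_isq Y1 h0 h1 h2 h3 h4] at h5
      unfold cD at h5
      have h6 := 𝔥.smul_mem (-om e (Y1 e) / 2)⁻¹ h5
      rw [smul_smul, inv_mul_cancel₀ hb1', one_smul] at h6
      exact hff h6
    · have h5 := yy_mem halt hsim hef hγ 𝔥 hconj hY1 (hsp Y1 hY1) (μ := ζ ^ 2)
        (Or.inr (Or.inr (Or.inl rfl)))
      rw [yy_sq4 Y1 h0 h1 h2 h3 h4] at h5
      unfold cC cD at h5
      set a := om (Y1 f) f / 2 with ha
      set b := -om e (Y1 e) / 2 with hb
      have ha0 : a ≠ 0 := by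
        intro h
        rw [h, zero_smul, zero_add] at h5
        have h6 := 𝔥.smul_mem b⁻¹ h5
        rw [smul_smul, inv_mul_cancel₀ hb1', one_smul] at h6
        exact hff h6
      set N := a • SS om e e + b • SS om f f with hN
      have hNv : ∀ v, N v = (2 * a * om e v) • e + (2 * b * om f v) • f := by
        intro v
        rw [hN]
        simp only [LinearMap.add_apply, LinearMap.smul_apply, SS_apply]
        module
      let P : Submodule K V := Submodule.span K {e, f}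
      have me : e ∈ P := Submodule.subset_span (by simp)
      have mf : f ∈ P := Submodule.subset_span (by simp)
      have hPst : ∀ Y ∈ 𝔥, ∀ u ∈ P, Y u ∈ P := by
        intro Y hY u hu
        obtain ⟨s, t, rfl⟩ := Submodule.mem_span_pair.1 hu
        rw [map_add, map_smul, map_smul, split_hh om e f (Y e), split_hh om e f (Y f), hYe Y hY,
          hYf Y hY, zero_add, zero_add]
        exact P.add_mem (P.smul_mem _ (P.add_mem (P.smul_mem _ me) (P.smul_mem _ mf)))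
          (P.smul_mem _ (P.add_mem (P.smul_mem _ me) (P.smul_mem _ mf)))
      have hPdim : finrank K P ≤ 2 := by
        have h5 := finrank_span_finset_le_card (R := K) ({e, f} : Finset V)
        have h6 : (({e, f} : Finset V) : Set V) = {e, f} := by simp
        rw [h6] at h5
        exact h5.trans Finset.card_le_two
      have hPirr : ∀ Q ≤ P, (∀ Y ∈ 𝔥, ∀ u ∈ Q, Y u ∈ Q) → Q = ⊥ ∨ Q = P := by
        intro Q hQP hQ
        by_contra hcon
        push Not at hcon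
        obtain ⟨n1, n2⟩ := hcon
        obtain ⟨x, hx, hx0⟩ := Submodule.exists_mem_ne_zero_of_ne_bot n1
        apply heig x hx0
        intro Y hY
        have h6 : finrank K Q < finrank K P := Submodule.finrank_lt_finrank_of_lt
          (lt_of_le_of_ne hQP n2)
        have h7 : finrank K Q ≤ 1 := by omega
        have h8 : Submodule.span K {x} = Q := by
          refine Submodule.eq_of_le_of_finrank_le ?_ ?_
          · rw [Submodule.span_singleton_le_iff_mem]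
            exact hx
          · rw [finrank_span_singleton hx0]
            exact h7
        have h9 := hQ Y hY x hx
        rw [← h8] at h9
        obtain ⟨s, hs⟩ := Submodule.mem_span_singleton.1 h9
        exact ⟨s, hs.symm⟩
      have htop : P = ⊤ := by
        refine p_top r χ hsim hirr hconj P hPst hPirr {N} ?_ ?_ me mf hef
        · rintro M rfl
          refine ⟨h5, fun v => ?_⟩
          rw [hNv]
          exact P.add_mem (P.smul_mem _ me) (P.smul_mem _ mf)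
        · intro v hv p hp
          have v1 := hv N rfl
          rw [hNv] at v1
          have c1 : om f v = 0 := by
            have h5 := congrArg (fun x => om e x) v1
            simp only [map_add, map_smul, halt, hef, smul_eq_mul, map_zero] at h5
            have h6 : 2 * b * om f v = 0 := by linear_combination h5
            exact (mul_eq_zero.1 h6).resolve_left (mul_ne_zero (by norm_num) hb1')
          have c2 : om e v = 0 := by
            have h5 := congrArg (fun x => om x f) v1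
            simp only [map_add, map_smul, LinearMap.add_apply, LinearMap.smul_apply, halt, hef,
              smul_eq_mul, map_zero, LinearMap.zero_apply] at h5
            have h6 : 2 * a * om e v = 0 := by linear_combination h5
            exact (mul_eq_zero.1 h6).resolve_left (mul_ne_zero (by norm_num) ha0)
          obtain ⟨s, t, rfl⟩ := Submodule.mem_span_pair.1 hp
          rw [hanti]
          simp only [map_add, map_smul, LinearMap.add_apply, LinearMap.smul_apply, c1, c2,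
            neg_zero, smul_zero, add_zero]
      have h6 : finrank K V ≤ 2 := by
        rw [← finrank_top K V, ← htop]
        exact hPdim
      omega

/-- **The full symplectic Lie algebra.** -/
theorem full [IsAlgClosed K] (halt : ∀ v, om v v = 0) (hnd : ∀ u, (∀ v, om v u = 0) → u = 0)
    (hsim : ∀ s u v, om (r s u) (r s v) = χ s * om u v)
    (hirr : ∀ Δ : Subgroup G, Δ.FiniteIndex → ∀ W : Submodule K V,
      (∀ s ∈ Δ, ∀ u ∈ W, r s u ∈ W) → W = ⊥ ∨ W = ⊤)
    (hbr : ∀ X ∈ 𝔥, ∀ Y ∈ 𝔥, X * Y - Y * X ∈ 𝔥)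
    (hconj : ∀ s : G, ∀ X ∈ 𝔥, r s * X * r s⁻¹ ∈ 𝔥)
    (hsp : ∀ X ∈ 𝔥, ∀ u w, om (X u) w + om u (X w) = 0)
    (hns : ∃ Y ∈ 𝔥, ¬∃ a : K, ∀ u, Y u = a • u)
    {γ : G} {ζ c : K} {e f : V} (hef : om e f = 1)
    (hγ : ∀ u, r γ u = c • (u + ((ζ - 1) * om u f) • e + ((ζ⁻¹ - 1) * om e u) • f))
    (h1 : ζ ≠ 1) (h2 : ζ ≠ -1) (hd : 3 ≤ finrank K V) (hd3 : ζ ^ 3 = 1 → 5 ≤ finrank K V) :
    ∀ u v, SS om u v ∈ 𝔥 := by
  obtain ⟨a, b, hab, hne, hm⟩ := exists_small r χ halt hsim hirr hbr hconj hsp hns hef hγ h1 h2 hd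
    hd3
  exact Pool.Agent.TH118.CU.nrm_core om 𝔥 r χ halt hnd hsim hirr hbr hconj hsp hab hne hm

end Pool.Agent.W5h27.BR
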