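import Mathlib
import Pool.Agent.TH118.CU.Final
import Pool.Agent.W5h27.BR.Small
import Pool.Agent.W5h27.BR.Gour

/-!
# Tate classes and symplectic bireflections of any order different from two
-/

set_option autoImplicit false

namespace Pool.Agent.W5h27.BR

open Module Pool.Agent.H204R3.SP Pool.Agent.H204R3.GP Pool.Agent.W522.U Pool.Agent.TH118.WC
open Pool.Agent.TH118.CR Pool.Agent.TH118.CU Pool.Agent.W529.Ta Pool.Agent.W528.Odd
open Pool.Agent.W528.Tor (AltDual)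

/-- For each `i` there is an element of the group which acts on `E i` as a scalar times a
symplectic bireflection with eigenvalues `ζ`, `ζ⁻¹`, where `ζ` is different from `1` and `-1`, and
the dimension of `E i` is at least five if `ζ` is of order three. -/
def HasBi {K : Type} [Field K] {X : Type} [AddCommGroup X] [Module K X]
    {Γ : Type} [Group Γ] (R : Representation K Γ X) (ω : X →ₗ[K] X →ₗ[K] K) {I : Type}
    (E : I → Submodule K X) : Prop :=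
  ∀ i, ∃ (γ : Γ) (ζ : K), (∃ (c : K) (l l' : X), l ∈ E i ∧ l' ∈ E i ∧ ω l l' = 1 ∧
    ∀ u ∈ E i, R γ u = c • (u + ((ζ - 1) * ω u l') • l + ((ζ⁻¹ - 1) * ω l u) • l')) ∧
      ζ ≠ 1 ∧ ζ ≠ -1 ∧ (ζ ^ 3 = 1 → 5 ≤ finrank K (E i))

variable {K : Type} [Field K] [CharZero K] {X : Type} [AddCommGroup X]
  [Module K X] [FiniteDimensional K X] {Γ : Type} [Group Γ] {R : Representation K Γ X}
  {χ : Γ →* K} {I : Type} {E : I → Submodule K X}

/-- The stabilizer of a subspace. -/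
def stb (R : Representation K Γ X) (U : Submodule K X) : Subgroup Γ where
  carrier := {g | ∀ u ∈ U, R g u ∈ U}
  one_mem' := by
    intro u hu
    rw [map_one, Module.End.one_apply]
    exact hu
  mul_mem' := by
    intro a b ha hb u hu
    rw [map_mul, Module.End.mul_apply]
    exact ha _ (hb u hu)
  inv_mem' := by
    intro h hh
    have h1 : U.map (R h) ≤ U := by
      rintro _ ⟨u, hu, rfl⟩
      exact hh u hu
    have hinj : Function.Injective (R h) := by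
      intro u v huv
      rw [← Rinv (R := R) h u, huv, Rinv]
    have h2 : U.map (R h) = U := by
      refine Submodule.eq_of_le_of_finrank_eq h1 ?_
      exact (LinearEquiv.finrank_eq (Submodule.equivMapOfInjective (R h) hinj U)).symm
    intro u hu
    rw [← h2] at hu
    obtain ⟨v, hv, rfl⟩ := hu
    rw [Rinv]
    exact hv

/-- The restrictions to one strongly irreducible subspace. -/
theorem full_res [IsAlgClosed K] (ω : X →ₗ[K] X →ₗ[K] K) (halt : ∀ v, ω v v = 0)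
    (hnd : ∀ u, (∀ v, ω u v = 0) → u = 0)
    (hωR : ∀ g u v, ω (R g u) (R g v) = χ g * ω u v) (hss : HasProj R) {U : Submodule K X}
    (hU : SI R U) (hd : 3 ≤ finrank K U) {γ : Γ} {ζ c : K} {l l' : X} (hl : l ∈ U)
    (hl' : l' ∈ U) (hll : ω l l' = 1)
    (hγ : ∀ u ∈ U, R γ u = c • (u + ((ζ - 1) * ω u l') • l + ((ζ⁻¹ - 1) * ω l u) • l'))
    (h1 : ζ ≠ 1) (h2 : ζ ≠ -1) (hd3 : ζ ^ 3 = 1 → 5 ≤ finrank K U)
    (hns : ∃ Y ∈ lieT R χ, ¬∃ a : K, ∀ u ∈ U, Y u = a • u) :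
    (∀ u ∈ U, (∀ v ∈ U, ω v u = 0) → u = 0) ∧
    ∀ u ∈ U, ∀ v ∈ U, ∃ N ∈ lieT R χ, ∀ x ∈ U, N x = ω u x • v + ω v x • u := by
  have hanti := alt_anti halt
  have hst : ∀ Y ∈ lieT R χ, ∀ u ∈ U, Y u ∈ U := fun Y hY => lieT_stable ω hnd hωR hss hU.2.1 hY
  have hleft := du_left (R := R) (χ := χ) (B := ω) (Δ := ⊤) hU hU.2.1 inferInstance
    ⟨l, hl, l', hl', by rw [hll]; exact one_ne_zero⟩ (fun g _ u _ v _ => hωR g u v)
  have hndU : ∀ u ∈ U, (∀ v ∈ U, ω v u = 0) → u = 0 := by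
    intro u hu h
    refine hleft u hu fun v hv => ?_
    rw [hanti, h v hv, neg_zero]
  refine ⟨hndU, ?_⟩
  obtain ⟨D, hD, hDU⟩ := id hU.2.1
  let Δ : Subgroup Γ := stb R U
  have hUΔ : ∀ g ∈ Δ, ∀ u ∈ U, R g u ∈ U := fun g hg => hg
  have hΔ : Δ.FiniteIndex := Subgroup.finiteIndex_of_le (H := D) (fun g hg => hDU g hg)
  have hγΔ : γ ∈ Δ := by
    intro u hu
    rw [hγ u hu]
    exact U.smul_mem _ (U.add_mem (U.add_mem hu (U.smul_mem _ hl)) (U.smul_mem _ hl'))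
  have hfull := full (resR R Δ U hUΔ) (χ.comp Δ.subtype) (om := rom ω U)
    (𝔥 := img (lieT R χ) U) (fun v => halt v) (fun u hu => ?_) (fun s u v => hωR s.1 u v)
    (sIrr_res hU Δ hΔ hUΔ) ?_ ?_ ?_ ?_ (γ := ⟨γ, hγΔ⟩) (ζ := ζ) (c := c) (e := ⟨l, hl⟩)
    (f := ⟨l', hl'⟩) hll (fun u => Subtype.ext (hγ u u.2)) h1 h2 hd hd3
  · intro u hu v hv
    obtain ⟨N, hN, hNx⟩ := hfull ⟨u, hu⟩ ⟨v, hv⟩
    refine ⟨N, hN, fun x hx => ?_⟩
    rw [← hNx ⟨x, hx⟩]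
    rfl
  · apply Subtype.ext
    exact hndU u u.2 fun v hv => hu ⟨v, hv⟩
  · rintro Z ⟨Y, hY, hYZ⟩ Z' ⟨Y', hY', hYZ'⟩
    refine ⟨Y * Y' - Y' * Y, lieT_bracket R χ hY hY', fun x => ?_⟩
    rw [LinearMap.sub_apply, Module.End.mul_apply, Module.End.mul_apply, Submodule.coe_sub, hYZ,
      hYZ', hYZ', hYZ]
    rfl
  · rintro s Z ⟨Y, hY, hYZ⟩
    refine ⟨R s * Y * R s⁻¹, lieT_conj R χ s.1 hY, fun x => ?_⟩
    rw [Module.End.mul_apply, Module.End.mul_apply, resR_apply, hYZ, resR_apply]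
    rfl
  · rintro Z ⟨Y, hY, hYZ⟩ u w
    rw [rom_apply, rom_apply, hYZ, hYZ]
    exact lieT_sp R χ ω hωR hY u w
  · obtain ⟨Y, hY, hna⟩ := hns
    refine ⟨Y.restrict (hst Y hY), ⟨Y, hY, fun x => rfl⟩, ?_⟩
    rintro ⟨a, ha⟩
    apply hna
    refine ⟨a, fun u hu => ?_⟩
    have h3 := congrArg Subtype.val (ha ⟨u, hu⟩)
    exact h3

/-- **The main theorem over an algebraically closed field.** -/
theorem main_pt [IsAlgClosed K] (ω : X →ₗ[K] X →ₗ[K] K) (halt : ∀ v, ω v v = 0)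
    (hnd : ∀ u, (∀ v, ω u v = 0) → u = 0)
    (hωR : ∀ g u v, ω (R g u) (R g v) = χ g * ω u v) (hss : HasProj R)
    (hE : StronglyIrreducibleSum R E) (hbi : HasBi R ω E) (hF : HasFrobenii R E)
    {m : ℕ} (φ : MultilinearMap K (fun _ : Fin m × Fin 2 => X) K) (hφ : IsTate R χ m φ) :
    φ ∈ Submodule.span K (PT R χ m) := by
  have hst : ∀ j, ∀ Y ∈ lieT R χ, ∀ u ∈ E j, Y u ∈ E j := fun j Y hY =>
    lieT_stable ω hnd hωR hss (hE.1 j).2.1 hY
  have hres : ∀ i, (∀ u ∈ E i, (∀ v ∈ E i, ω v u = 0) → u = 0) ∧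
      ∀ u ∈ E i, ∀ v ∈ E i, ∃ N ∈ lieT R χ, ∀ x ∈ E i, N x = ω u x • v + ω v x • u := by
    intro i
    obtain ⟨γ, ζ, ⟨c, l, l', hl, hl', hll, hγ⟩, h1, h2, h3⟩ := hbi i
    obtain ⟨F, b, hb, u, hu, v, hv, hu0, hv0, al, be, hal, hbe, hab⟩ := hF i
    refine full_res ω halt hnd hωR hss (hE.1 i) (hE.2.1 i) hl hl' hll hγ h1 h2 h3 ?_
    obtain ⟨Y, hY, s, t, hst', hYu, hYv⟩ := exists_nonscalar R χ F b hb hu0 hv0 hal hbe hab
    refine ⟨Y, hY, ?_⟩
    rintro ⟨a, ha⟩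
    apply hst'
    have h3 : s = a := by
      have h4 : (s - a) • u = 0 := by rw [sub_smul, ← hYu, ha u hu, sub_self]
      exact sub_eq_zero.1 ((smul_eq_zero.1 h4).resolve_right hu0)
    have h5 : t = a := by
      have h4 : (t - a) • v = 0 := by rw [sub_smul, ← hYv, ha v hv, sub_self]
      exact sub_eq_zero.1 ((smul_eq_zero.1 h4).resolve_right hv0)
    rw [h3, h5]
  have hN : ∀ i, ∃ N ∈ lieT R χ, N * N = 0 ∧ finrank K ((E i).map N) = 1 := fun i =>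
    exists_rank_one halt hst (fun Y hY Z hZ => lieT_bracket R χ hY hZ)
      (fun Y hY u v => lieT_sp R χ ω hωR hY u v) (fun j => (hres j).1) (fun j => (hres j).2)
      hE.2.2 i (hE.1 i).1
  have hself : ∀ i, ∃ u ∈ E i, ∃ v ∈ E i, ω u v ≠ 0 := by
    intro i
    obtain ⟨γ, ζ, ⟨c, l, l', hl, hl', hll, -⟩, -⟩ := hbi i
    exact ⟨l, hl, l', hl', by rw [hll]; exact one_ne_zero⟩
  have hsd : ∀ U, SI R U → Du R χ U U := by
    intro U hU
    obtain ⟨i, Δ, hΔ, T, hTU, h0, hT⟩ := exists_iso hss hE hU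
    have hmap := tw_map hU (hE.1 i) hΔ hTU h0 hT
    obtain ⟨u, hu, v, hv, huv⟩ := hself i
    rw [← hmap] at hu hv
    obtain ⟨u', hu', rfl⟩ := hu
    obtain ⟨v', hv', rfl⟩ := hv
    refine ⟨Δ, hΔ, ω.compl₁₂ T T, ⟨u', hu', v', hv', huv⟩, fun g hg w hw w' hw' => ?_⟩
    rw [LinearMap.compl₁₂_apply, LinearMap.compl₁₂_apply, hT g hg w hw, hT g hg w' hw', one_smul,
      one_smul, hωR]
  have hdim : ∀ U, SI R U → 3 ≤ finrank K U := by
    intro U hU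
    obtain ⟨i, Δ, hΔ, T, hTU, h0, hT⟩ := exists_iso hss hE hU
    obtain ⟨e, -⟩ := tw_equiv hU (hE.1 i) hΔ hTU h0 hT
    rw [e.finrank_eq]
    exact hE.2.1 i
  refine detProd_pt hsd φ (Pool.Agent.TH118.CU.nil_det ω hnd hωR ?_ hss ?_ ?_ φ hφ)
  · intro U hU _
    obtain ⟨i, hi⟩ := exists_iso hss hE hU
    obtain ⟨N, hN1, hN2, hN3⟩ := hN i
    have hrk := rank_transfer ω hnd hωR hss hU (hE.1 i) hi hN1
    exact ⟨N, hN1, hN2, Or.inl (by rw [← hrk]; exact hN3)⟩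
  · intro U hU h1
    have h3 := hdim U hU
    omega
  · intro U U' hU _ _ hnsd
    exact absurd (hsd U hU) hnsd

end Pool.Agent.W5h27.BR
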