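import Mathlib
import Pool.Agent.W5h27.BR.Small
import Pool.Agent.W5h27.BR.Ext

/-!
# Elements with a fixed space of codimension at most two
-/

set_option autoImplicit false

namespace Pool.Agent.W5h27.BR

open Module Pool.Agent.H204R3.SP Pool.Agent.H204R3.GP Pool.Agent.W529.Ta

variable {K : Type} [Field K] [CharZero K] [IsAlgClosed K] {V : Type} [AddCommGroup V]
  [Module K V] [FiniteDimensional K V]
  {om : V →ₗ[K] V →ₗ[K] K} {𝔥 : Submodule K (Module.End K V)}
  {G : Type} [Group G] (r : Representation K G V) (χ : G →* K)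
  (halt : ∀ v, om v v = 0) (hnd : ∀ u, (∀ v, om v u = 0) → u = 0)
  (hsim : ∀ s u v, om (r s u) (r s v) = χ s * om u v)
  (hirr : ∀ Δ : Subgroup G, Δ.FiniteIndex → ∀ W : Submodule K V,
      (∀ s ∈ Δ, ∀ u ∈ W, r s u ∈ W) → W = ⊥ ∨ W = ⊤)
  (hbr : ∀ X ∈ 𝔥, ∀ Y ∈ 𝔥, X * Y - Y * X ∈ 𝔥)
  (hconj : ∀ s : G, ∀ X ∈ 𝔥, r s * X * r s⁻¹ ∈ 𝔥)
  (hsp : ∀ X ∈ 𝔥, ∀ u w, om (X u) w + om u (X w) = 0)
  (hns : ∃ Y ∈ 𝔥, ¬∃ a : K, ∀ u, Y u = a • u)

include halt hnd hsim hirr hbr hconj hsp hns

omit hbr in
/-- A nilpotent operator of rank at most two which normalizes the Lie algebra. -/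
theorem full_norm {N : Module.End K V} (hN : ∀ u w, om (N u) w + om u (N w) = 0)
    (hN2 : N * N = 0) (hrk : finrank K (LinearMap.range N) ≤ 2) (hN0 : N ≠ 0)
    (hnorm : ∀ Y ∈ 𝔥, N * Y - Y * N ∈ 𝔥) : ∀ u v, SS om u v ∈ 𝔥 := by
  let 𝔫 : Submodule K (Module.End K V) :=
    { carrier := {Z | (∀ u w, om (Z u) w + om u (Z w) = 0) ∧ ∀ Y ∈ 𝔥, Z * Y - Y * Z ∈ 𝔥}
      zero_mem' := by
        refine ⟨fun u w => by simp, fun Y _ => ?_⟩
        rw [zero_mul, mul_zero, sub_zero]
        exact 𝔥.zero_mem
      add_mem' := by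
        rintro Z Z' ⟨h1, h2⟩ ⟨h3, h4⟩
        refine ⟨fun u w => ?_, fun Y hY => ?_⟩
        · have h5 := h1 u w
          have h6 := h3 u w
          simp only [LinearMap.add_apply, map_add]
          linear_combination h5 + h6
        · have h5 := 𝔥.add_mem (h2 Y hY) (h4 Y hY)
          have h6 : (Z + Z') * Y - Y * (Z + Z') = Z * Y - Y * Z + (Z' * Y - Y * Z') := by
            noncomm_ring
          rw [h6]
          exact h5
      smul_mem' := by
        rintro c Z ⟨h1, h2⟩
        refine ⟨fun u w => ?_, fun Y hY => ?_⟩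
        · have h5 := h1 u w
          simp only [LinearMap.smul_apply, map_smul, smul_eq_mul]
          linear_combination c * h5
        · rw [smul_mul_assoc, mul_smul_comm, ← smul_sub]
          exact 𝔥.smul_mem c (h2 Y hY) }
  have hconj' : ∀ s : G, ∀ X ∈ 𝔥, r s⁻¹ * X * r s ∈ 𝔥 := by
    intro s X hX
    have h1 := hconj s⁻¹ X hX
    rwa [inv_inv] at h1
  obtain ⟨a, b, hab, hNab⟩ := Pool.Agent.W528.Tor.exists_SS om halt hnd hN hN2 hrk
  have h1 : ∀ u v, SS om u v ∈ 𝔫 := by
    refine Pool.Agent.TH118.CU.nrm_core om 𝔫 r χ halt hnd hsim hirr ?_ ?_ (fun X hX => hX.1)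
      hab ?_ ?_
    · rintro Z ⟨h1, h2⟩ Z' ⟨h3, h4⟩
      refine ⟨fun u w => ?_, fun Y hY => ?_⟩
      · simp only [LinearMap.sub_apply, Module.End.mul_apply, map_sub]
        have e1 := h1 (Z' u) w
        have e2 := h3 u (Z w)
        have e3 := h3 (Z u) w
        have e4 := h1 u (Z' w)
        linear_combination e1 - e2 - e3 + e4
      · have h5 := 𝔥.sub_mem (h2 _ (h4 Y hY)) (h4 _ (h2 Y hY))
        have h6 : (Z * Z' - Z' * Z) * Y - Y * (Z * Z' - Z' * Z) =
            Z * (Z' * Y - Y * Z') - (Z' * Y - Y * Z') * Z -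
              (Z' * (Z * Y - Y * Z) - (Z * Y - Y * Z) * Z') := by noncomm_ring
        rw [h6]
        exact h5
    · rintro s Z ⟨h1, h2⟩
      refine ⟨fun u w => ?_, fun Y hY => ?_⟩
      · rw [Module.End.mul_apply, Module.End.mul_apply, Module.End.mul_apply, Module.End.mul_apply]
        have e1 : ∀ u w, om (r s u) w = χ s * om u (r s⁻¹ w) := by
          intro u w
          rw [← hsim, rho_inv']
        have e2 : ∀ u w, om u (r s w) = χ s * om (r s⁻¹ u) w := by
          intro u w
          rw [← hsim, rho_inv']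
        rw [e1, e2, ← mul_add, h1, mul_zero]
      · have h5 := hconj s _ (h2 _ (hconj' s Y hY))
        have h6 : r s * (Z * (r s⁻¹ * Y * r s) - r s⁻¹ * Y * r s * Z) * r s⁻¹ =
            r s * Z * r s⁻¹ * Y - Y * (r s * Z * r s⁻¹) := by
          have h7 : r s * r s⁻¹ = 1 := by rw [← map_mul, mul_inv_cancel, map_one]
          calc r s * (Z * (r s⁻¹ * Y * r s) - r s⁻¹ * Y * r s * Z) * r s⁻¹ =
              r s * Z * r s⁻¹ * Y * (r s * r s⁻¹) - (r s * r s⁻¹) * Y * (r s * Z * r s⁻¹) := by
                noncomm_ring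
            _ = r s * Z * r s⁻¹ * Y - Y * (r s * Z * r s⁻¹) := by rw [h7, mul_one, one_mul]
        rw [h6] at h5
        exact h5
    · rw [← hNab]
      exact hN0
    · rw [← hNab]
      exact ⟨hN, hnorm⟩
  refine ideal_all halt hnd 𝔥 (fun a b Y hY => (h1 a b).2 Y hY) hsp ?_
  obtain ⟨Y, hY, hna⟩ := hns
  rintro h0
  rw [h0, Submodule.mem_bot] at hY
  exact hna ⟨0, fun u => by rw [hY, LinearMap.zero_apply, zero_smul]⟩

omit hbr in
/-- A scalar times a unipotent element of rank at most two. -/
theorem full_unip {γ : G} {c : K} {N : Module.End K V} (hγ : ∀ u, r γ u = c • (u + N u))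
    (hN : ∀ u w, om (N u) w + om u (N w) = 0)
    (hN2 : N * N = 0) (hrk : finrank K (LinearMap.range N) ≤ 2) (hN0 : N ≠ 0) :
    ∀ u v, SS om u v ∈ 𝔥 := by
  refine full_norm r χ halt hnd hsim hirr hconj hsp hns hN hN2 hrk hN0 fun Y hY => ?_
  have hNN : ∀ u, N (N u) = 0 := fun u => by rw [← Module.End.mul_apply, hN2]; rfl
  have hc : c ≠ 0 := by
    rintro rfl
    obtain ⟨u, hu⟩ : ∃ u, N u ≠ 0 := by
      by_contra h
      push Not at h
      exact hN0 (LinearMap.ext h)
    have h1 : r γ⁻¹ (r γ u) = u := rho_inv r γ u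
    rw [hγ, zero_smul, map_zero] at h1
    rw [← h1, map_zero] at hu
    exact hu rfl
  have hinv : ∀ u, r γ⁻¹ u = c⁻¹ • (u - N u) := by
    intro u
    have h1 : r γ (c⁻¹ • (u - N u)) = u := by
      rw [hγ, map_smul, map_sub, hNN, sub_zero, ← smul_add, smul_smul, mul_inv_cancel₀ hc,
        one_smul, sub_add_cancel]
    have h2 : r γ⁻¹ (r γ (c⁻¹ • (u - N u))) = c⁻¹ • (u - N u) := rho_inv r γ _
    rw [h1] at h2
    exact h2
  have hT : ∀ Z : Module.End K V, r γ * Z * r γ⁻¹ = Z + (N * Z - Z * N) - N * Z * N := by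
    intro Z
    refine LinearMap.ext fun u => ?_
    simp only [Module.End.mul_apply, LinearMap.add_apply, LinearMap.sub_apply]
    rw [hinv, map_smul, map_smul, hγ, smul_smul, inv_mul_cancel₀ hc, one_smul, map_sub, map_sub]
    abel
  have h1 : N * Y - Y * N - N * Y * N ∈ 𝔥 := by
    have h2 := 𝔥.sub_mem (hconj γ Y hY) hY
    rw [hT] at h2
    have h3 : Y + (N * Y - Y * N) - N * Y * N - Y = N * Y - Y * N - N * Y * N := by abel
    rwa [h3] at h2
  have h2 : N * Y * N ∈ 𝔥 := by
    have h3 := 𝔥.sub_mem (hconj γ _ h1) h1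
    rw [hT] at h3
    have h4 : N * Y - Y * N - N * Y * N + (N * (N * Y - Y * N - N * Y * N) -
        (N * Y - Y * N - N * Y * N) * N) - N * (N * Y - Y * N - N * Y * N) * N -
        (N * Y - Y * N - N * Y * N) = (-2 : K) • (N * Y * N) := by
      refine LinearMap.ext fun u => ?_
      simp only [Module.End.mul_apply, LinearMap.add_apply, LinearMap.sub_apply,
        LinearMap.smul_apply, map_sub, hNN, map_zero]
      module
    rw [h4] at h3
    have h5 := 𝔥.smul_mem (-1 / 2 : K) h3
    rw [smul_smul] at h5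
    norm_num at h5
    exact h5
  have h3 := 𝔥.add_mem h1 h2
  rwa [sub_add_cancel] at h3

/-- **Elements with a fixed space of codimension at most two.** -/
theorem full_small {γ : G} {c : K} {N : Module.End K V} (hγ : ∀ u, r γ u = c • (u + N u))
    (hN : ∀ u w, om (u + N u) (w + N w) = om u w) (hrk : finrank K (LinearMap.range N) ≤ 2)
    (h2 : ¬∀ u, u + N u + N (u + N u) = u) (hd : 3 ≤ finrank K V)
    (h3 : (∀ u, u + N u + N (u + N u) + N (u + N u + N (u + N u)) = u) → 5 ≤ finrank K V) :
    ∀ u v, SS om u v ∈ 𝔥 := by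
  classical
  have hanti := alt_anti halt
  have hsym : ∀ u w, om (N u) w + om u (N w) + om (N u) (N w) = 0 := by
    intro u w
    have h4 := hN u w
    simp only [map_add, LinearMap.add_apply] at h4
    linear_combination h4
  have hN0 : N ≠ 0 := by
    rintro rfl
    exact h2 fun u => by simp
  by_cases hiso : ∀ u w, om (N u) (N w) = 0
  · have hsk : ∀ u w, om (N u) w + om u (N w) = 0 := by
      intro u w
      have h4 := hsym u w
      rw [hiso, add_zero] at h4
      exact h4
    refine full_unip r χ halt hnd hsim hirr hconj hsp hns hγ hsk ?_ hrk hN0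
    refine LinearMap.ext fun u => ?_
    rw [Module.End.mul_apply, LinearMap.zero_apply]
    apply hnd
    intro v
    have h4 := hsk v (N u)
    rw [hiso, zero_add] at h4
    exact h4
  push Not at hiso
  obtain ⟨x, y, hxy⟩ := hiso
  set M := LinearMap.range N with hM
  have hMN : ∀ u, N u ∈ M := fun u => ⟨u, rfl⟩
  have hinj : Function.Injective ⇑(1 + N : Module.End K V) := by
    rw [injective_iff_map_eq_zero]
    intro u hu
    rw [LinearMap.add_apply, Module.End.one_apply] at hu
    apply hnd
    intro v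
    rw [hanti, ← hN u v, hu, map_zero, LinearMap.zero_apply, neg_zero]
  have hsurj : Function.Surjective ⇑(1 + N : Module.End K V) :=
    LinearMap.surjective_of_injective hinj
  -- the operator kills the complement
  have hker : ∀ w, (∀ u, om w (N u) = 0) → N w = 0 := by
    intro w hw
    apply hnd
    intro v
    obtain ⟨v', rfl⟩ := hsurj v
    rw [LinearMap.add_apply, Module.End.one_apply, hanti, map_add]
    have h4 := hsym w v'
    rw [hw, add_zero] at h4
    rw [h4, neg_zero]
  -- an eigenvector in `M`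
  let t : Module.End K M := (1 + N).restrict (fun u hu => by
    rw [LinearMap.add_apply, Module.End.one_apply]
    exact M.add_mem hu (hMN u))
  have hMnt : Nontrivial M := by
    refine ⟨⟨⟨N x, hMN x⟩, 0, fun h => ?_⟩⟩
    have h4 : N x = 0 := congrArg Subtype.val h
    rw [h4, map_zero, LinearMap.zero_apply] at hxy
    exact hxy rfl
  obtain ⟨ζ, hζ⟩ := Module.End.exists_eigenvalue t
  obtain ⟨⟨e, heM⟩, he⟩ := hζ.exists_hasEigenvector
  have he0 : e ≠ 0 := fun h => he.2 (Subtype.ext h)
  have hte : e + N e = ζ • e := by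
    have h4 := congrArg Subtype.val he.apply_eq_smul
    exact h4
  -- the plane
  have hspan : ∀ e' f' : V, e' ∈ M → f' ∈ M → om e' f' ≠ 0 → ∀ m ∈ M, ∃ s u : K,
      m = s • e' + u • f' := by
    intro e' f' he' hf' hne m hm
    have hli : LinearIndependent K ![e', f'] := by
      rw [LinearIndependent.pair_iff]
      intro s u hsu
      have h4 := congrArg (fun z => om z f') hsu
      have h5 := congrArg (fun z => om e' z) hsu
      simp only [map_add, map_smul, LinearMap.add_apply, LinearMap.smul_apply, halt, smul_eq_mul,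
        map_zero, LinearMap.zero_apply, mul_zero, add_zero, zero_add] at h4 h5
      exact ⟨(mul_eq_zero.1 h4).resolve_right hne, (mul_eq_zero.1 h5).resolve_right hne⟩
    have h4 : Submodule.span K {e', f'} = M := by
      refine Submodule.eq_of_le_of_finrank_le ?_ ?_
      · rw [Submodule.span_le]
        rintro _ (rfl | rfl)
        · exact he'
        · exact hf'
      · have h5 := finrank_span_eq_card hli
        have h6 : Set.range ![e', f'] = {e', f'} := by
          simp
          exact Set.pair_comm _ _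
        rw [h6] at h5
        rw [h5]
        exact hrk
    rw [← h4] at hm
    obtain ⟨s, u, h5⟩ := Submodule.mem_span_pair.1 hm
    exact ⟨s, u, h5.symm⟩
  obtain ⟨f, hfM, hef⟩ : ∃ f ∈ M, om e f = 1 := by
    obtain ⟨s, u, hsu⟩ := hspan _ _ (hMN x) (hMN y) hxy e heM
    by_cases hs : s = 0
    · have hu : u ≠ 0 := by
        rintro rfl
        apply he0
        rw [hsu, hs, zero_smul, zero_smul, add_zero]
      refine ⟨(-(u * om (N x) (N y))⁻¹) • N x, M.smul_mem _ (hMN x), ?_⟩
      rw [hsu, hs, zero_smul, zero_add, map_smul, map_smul, LinearMap.smul_apply, hanti (N y)]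
      simp only [smul_eq_mul]
      field_simp
    · refine ⟨((s * om (N x) (N y))⁻¹) • N y, M.smul_mem _ (hMN y), ?_⟩
      rw [hsu, map_smul, map_add, LinearMap.add_apply, map_smul, map_smul, LinearMap.smul_apply,
        LinearMap.smul_apply, halt]
      simp only [smul_eq_mul]
      field_simp
      ring
  have hfM' : ∃ α : K, f + N f = α • e + ζ⁻¹ • f ∧ ζ ≠ 0 := by
    obtain ⟨α, β, hαβ⟩ := hspan e f heM hfM (by rw [hef]; exact one_ne_zero) (f + N f)
      (M.add_mem hfM (hMN f))
    have h4 := hN e f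
    rw [hte, hαβ, hef] at h4
    simp only [map_add, map_smul, LinearMap.smul_apply, smul_eq_mul, halt, hef] at h4
    have h5 : ζ * β = 1 := by linear_combination h4
    have hζ0 : ζ ≠ 0 := by
      rintro rfl
      rw [zero_mul] at h5
      exact zero_ne_one h5
    refine ⟨α, ?_, hζ0⟩
    rw [hαβ]
    congr 2
    exact eq_inv_of_mul_eq_one_right h5
  obtain ⟨α, htf, hζ0⟩ := hfM'
  -- the complement of a hyperbolic pair in `M`
  have hcomp : ∀ f' ∈ M, om e f' = 1 → ∀ u, N (hh om e f' u) = 0 := by
    intro f' hf' hef' u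
    apply hker
    intro v
    obtain ⟨s, q, hsq⟩ := hspan e f' heM hf' (by rw [hef']; exact one_ne_zero) _ (hMN v)
    rw [hsq, map_add, map_smul, map_smul, hh_e halt hef', hh_f halt hef', smul_zero, smul_zero,
      add_zero]
  by_cases hz : ζ * ζ = 1
  · -- the eigenvalues are `1` and `1`, or `-1` and `-1`
    have hζi : ζ⁻¹ = ζ := inv_eq_of_mul_eq_one_left hz
    rw [hζi] at htf
    have hNe : N e = (ζ - 1) • e := by
      rw [sub_smul, one_smul, ← hte]
      abel
    have hNf : N f = α • e + (ζ - 1) • f := by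
      have h4 : N f = f + N f - f := by abel
      rw [h4, htf]
      module
    have hNu : ∀ u, N u = (om u f * (ζ - 1) + om e u * α) • e + (om e u * (ζ - 1)) • f := by
      intro u
      conv_lhs => rw [split_hh om e f u]
      rw [map_add, map_add, map_smul, map_smul, hcomp f hfM hef, hNe, hNf]
      module
    have h4 : (ζ - 1) * (ζ + 1) = 0 := by linear_combination hz
    rcases mul_eq_zero.1 h4 with h5 | h5
    · exfalso
      apply hxy
      rw [hNu x, hNu y, h5]
      simp only [mul_zero, zero_smul, add_zero, zero_add, map_smul, LinearMap.smul_apply, halt,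
        smul_zero]
    · have hz1 : ζ - 1 = -2 := by linear_combination h5
      rw [hz1] at hNu
      have hN2 : ∀ u, u + N u + N (u + N u) = u + (-(α * 2) * om e u) • e := by
        intro u
        have e1 : om e (N u) = -(2 * om e u) := by
          rw [hNu u, map_add, map_smul, map_smul, halt, hef]
          simp only [smul_eq_mul]
          ring
        have e2 : om (N u) f = om u f * -2 + om e u * α := by
          rw [hNu u, map_add, map_smul, map_smul, LinearMap.add_apply, LinearMap.smul_apply,
            LinearMap.smul_apply, halt, hef]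
          simp only [smul_eq_mul]
          ring
        rw [map_add, hNu (N u), e1, e2, hNu u]
        module
      have hα : α ≠ 0 := by
        rintro rfl
        apply h2
        intro u
        rw [hN2]
        simp
      refine full_unip r χ halt hnd hsim hirr hconj hsp hns (γ := γ * γ) (c := c * c)
        (N := (-α) • SS om e e) (fun u => ?_) (fun u w => ?_) ?_ ?_ ?_
      · rw [map_mul, Module.End.mul_apply, hγ, hγ, map_smul, ← smul_add, smul_smul, hN2]
        rw [LinearMap.smul_apply, SS_apply]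
        module
      · rw [LinearMap.smul_apply, LinearMap.smul_apply, SS_apply, SS_apply]
        simp only [map_add, map_smul, LinearMap.add_apply, LinearMap.smul_apply, smul_eq_mul,
          hanti u e]
        ring
      · refine LinearMap.ext fun u => ?_
        simp only [Module.End.mul_apply, LinearMap.smul_apply, SS_apply, map_add, map_smul, halt,
          LinearMap.zero_apply, smul_eq_mul]
        simp
      · have h6 : LinearMap.range ((-α) • SS om e e) ≤ Submodule.span K {e} := by
          rintro _ ⟨u, rfl⟩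
          rw [LinearMap.smul_apply, SS_apply]
          exact Submodule.smul_mem _ _ (Submodule.add_mem _
            (Submodule.smul_mem _ _ (Submodule.mem_span_singleton_self e))
            (Submodule.smul_mem _ _ (Submodule.mem_span_singleton_self e)))
        refine (Submodule.finrank_mono h6).trans ?_
        rw [finrank_span_singleton he0]
        norm_num
      · exact smul_ne_zero (neg_ne_zero.2 hα) (SS_ee_ne halt hef)
  · -- distinct eigenvalues
    have hζ1 : ζ ≠ 1 := by
      rintro rfl
      exact hz (mul_one 1)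
    have hζ2 : ζ ≠ -1 := by
      rintro rfl
      exact hz (by norm_num)
    have hd1 : ζ - ζ⁻¹ ≠ 0 := by
      intro h
      apply hz
      have h4 : ζ = ζ⁻¹ := sub_eq_zero.1 h
      nth_rewrite 2 [h4]
      exact mul_inv_cancel₀ hζ0
    obtain ⟨s, hs⟩ : ∃ s : K, s = -α / (ζ - ζ⁻¹) := ⟨_, rfl⟩
    have hs' : α + s * ζ - s * ζ⁻¹ = 0 := by
      have h4 : s * (ζ - ζ⁻¹) = -α := by rw [hs, div_mul_cancel₀ _ hd1]
      linear_combination h4
    obtain ⟨f', hf'M, hef', htf'⟩ : ∃ f' ∈ M, om e f' = 1 ∧ f' + N f' = ζ⁻¹ • f' := by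
      refine ⟨f + s • e, M.add_mem hfM (M.smul_mem _ heM), ?_, ?_⟩
      · rw [map_add, map_smul, halt, hef, smul_zero, add_zero]
      · have h4 : f + s • e + N (f + s • e) = (f + N f) + s • (e + N e) := by
          rw [map_add, map_smul]
          module
        rw [h4, htf, hte]
        have h5 : α • e + ζ⁻¹ • f + s • ζ • e = ζ⁻¹ • (f + s • e) + (α + s * ζ - s * ζ⁻¹) • e := by
          module
        rw [h5, hs', zero_smul, add_zero]
    have hform : ∀ u, u + N u = u + ((ζ - 1) * om u f') • e + ((ζ⁻¹ - 1) * om e u) • f' := by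
      intro u
      have h4 : N u = om u f' • N e + om e u • N f' := by
        conv_lhs => rw [split_hh om e f' u]
        rw [map_add, map_add, map_smul, map_smul, hcomp f' hf'M hef', zero_add]
      have h5 : N e = (ζ - 1) • e := by
        rw [sub_smul, one_smul, ← hte]
        abel
      have h6 : N f' = (ζ⁻¹ - 1) • f' := by
        rw [sub_smul, one_smul, ← htf']
        abel
      rw [h4, h5, h6]
      module
    refine full r χ halt hnd hsim hirr hbr hconj hsp hns hef' (γ := γ) (ζ := ζ) (c := c)
      (fun u => by rw [hγ, hform]) hζ1 hζ2 hd fun hζ3 => h3 fun u => ?_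
    -- the cube
    have hN' : ∀ u, N u = ((ζ - 1) * om u f') • e + ((ζ⁻¹ - 1) * om e u) • f' := by
      intro u
      have h4 := hform u
      rw [add_assoc] at h4
      exact add_left_cancel h4
    have e1 : ∀ u, om (u + N u) f' = ζ * om u f' := by
      intro u
      rw [hN', map_add, map_add, map_smul, map_smul, LinearMap.add_apply, LinearMap.add_apply,
        LinearMap.smul_apply, LinearMap.smul_apply, hef', halt]
      simp only [smul_eq_mul]
      ring
    have e2 : ∀ u, om e (u + N u) = ζ⁻¹ * om e u := by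
      intro u
      rw [hN', map_add, map_add, map_smul, map_smul, hef', halt]
      simp only [smul_eq_mul]
      ring
    have hi : ζ⁻¹ * ζ = 1 := inv_mul_cancel₀ hζ0
    have hζ3' : ζ⁻¹ ^ 3 = 1 := by rw [inv_pow, hζ3, inv_one]
    have e3 : ∀ u, N (u + N u) = ((ζ - 1) * (ζ * om u f')) • e +
        ((ζ⁻¹ - 1) * (ζ⁻¹ * om e u)) • f' := by
      intro u
      rw [hN' (u + N u), e1, e2]
    have e4 : u + N u + N (u + N u) + N (u + N u + N (u + N u)) = u +
        ((ζ ^ 3 - 1) * om u f') • e + ((ζ⁻¹ ^ 3 - 1) * om e u) • f' := by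
      rw [e3 (u + N u), e1, e2, e3 u, hN' u]
      generalize ζ⁻¹ = z
      module
    rw [e4, hζ3, hζ3', sub_self, zero_mul, zero_mul, zero_smul, zero_smul, add_zero, add_zero]

end Pool.Agent.W5h27.BR
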