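import Mathlib
import Pool.Agent.W5h27.BR.Norm

/-!
# The plane
-/

set_option autoImplicit false

namespace Pool.Agent.W5h27.BR

open Module Pool.Agent.H204R3.SP Pool.Agent.H204R3.GP Pool.Agent.W529.Ta

variable {K : Type} [Field K] [CharZero K] {V : Type} [AddCommGroup V]
  [Module K V] [FiniteDimensional K V] {om : V →ₗ[K] V →ₗ[K] K}

/-- Vectors orthogonal to a nonzero vector in a plane are multiples of it. -/
theorem plane_prop (halt : ∀ v, om v v = 0) (hnd : ∀ u, (∀ v, om v u = 0) → u = 0)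
    (hd : finrank K V = 2) {u v : V} (hu : u ≠ 0) (h : om v u = 0) : ∃ s : K, v = s • u := by
  have hanti := alt_anti halt
  obtain ⟨y, hy⟩ := ex_one halt hnd hu
  have hli : LinearIndependent K ![y, u] := by
    rw [LinearIndependent.pair_iff]
    intro s t hst
    have h4 := congrArg (fun z => om z u) hst
    have h5 := congrArg (fun z => om y z) hst
    simp only [map_add, map_smul, LinearMap.add_apply, LinearMap.smul_apply, halt, smul_eq_mul,
      map_zero, LinearMap.zero_apply, mul_zero, add_zero, zero_add, hy, mul_one] at h4 h5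
    exact ⟨h4, h5⟩
  have h4 : Submodule.span K (Set.range ![y, u]) = ⊤ :=
    hli.span_eq_top_of_card_eq_finrank (by rw [hd]; rfl)
  have h5 : v ∈ Submodule.span K (Set.range ![y, u]) := by rw [h4]; trivial
  obtain ⟨c, hc⟩ := (Submodule.mem_span_range_iff_exists_fun K).1 h5
  rw [Fin.sum_univ_two] at hc
  have hc' : c 0 • y + c 1 • u = v := hc
  refine ⟨c 1, ?_⟩
  have h6 := congrArg (fun z => om z u) hc'
  simp only [map_add, map_smul, LinearMap.add_apply, LinearMap.smul_apply, halt, smul_eq_mul,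
    hy, mul_one, mul_zero, add_zero, h] at h6
  rw [← hc', h6, zero_smul, zero_add]

/-- The square of a symplectic operator of a plane. -/
theorem plane_sq (halt : ∀ v, om v v = 0) (hnd : ∀ u, (∀ v, om v u = 0) → u = 0)
    (hd : finrank K V = 2) {Y : Module.End K V} (hY : ∀ u w, om (Y u) w + om u (Y w) = 0) :
    ∃ s : K, ∀ u, Y (Y u) = s • u := by
  have h1 : ∀ v, ¬LinearIndependent K ![v, (Y * Y) v] := by
    intro v hli
    have hv0 : v ≠ 0 := hli.ne_zero 0
    obtain ⟨s, hs⟩ := plane_prop halt hnd hd hv0 (v := Y (Y v)) (by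
      have h3 := hY (Y v) v
      rw [halt, add_zero] at h3
      exact h3)
    have h2 := Fintype.linearIndependent_iff.1 hli ![-s, 1] (by
      rw [Fin.sum_univ_two]
      simp [hs])
    have h3 := h2 1
    simp at h3
  obtain ⟨s, hs⟩ := LinearMap.exists_eq_smul_id_of_forall_notLinearIndependent h1
  refine ⟨s, fun u => ?_⟩
  have h3 := congrArg (fun Z : Module.End K V => Z u) hs
  exact h3

/-- In a plane a conjugation stable Lie algebra which is not scalar is everything. -/
theorem full_two [IsAlgClosed K] {𝔥 : Submodule K (Module.End K V)}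
    {G : Type} [Group G] (r : Representation K G V) (χ : G →* K)
    (halt : ∀ v, om v v = 0) (hnd : ∀ u, (∀ v, om v u = 0) → u = 0)
    (hsim : ∀ s u v, om (r s u) (r s v) = χ s * om u v)
    (hirr : ∀ Δ : Subgroup G, Δ.FiniteIndex → ∀ W : Submodule K V,
      (∀ s ∈ Δ, ∀ u ∈ W, r s u ∈ W) → W = ⊥ ∨ W = ⊤)
    (hbr : ∀ X ∈ 𝔥, ∀ Y ∈ 𝔥, X * Y - Y * X ∈ 𝔥)
    (hconj : ∀ s : G, ∀ X ∈ 𝔥, r s * X * r s⁻¹ ∈ 𝔥)
    (hsp : ∀ X ∈ 𝔥, ∀ u w, om (X u) w + om u (X w) = 0)
    (hns : ∃ Y ∈ 𝔥, ¬∃ a : K, ∀ u, Y u = a • u) (hd : finrank K V = 2) :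
    ∀ u v, SS om u v ∈ 𝔥 := by
  by_cases hnil : ∃ N ∈ 𝔥, N ≠ 0 ∧ N * N = 0
  · obtain ⟨N, hN, hN0, hN2⟩ := hnil
    refine full_norm r χ halt hnd hsim hirr hconj hsp hns (hsp N hN) hN2 ?_ hN0
      (fun Y hY => hbr N hN Y hY)
    rw [← hd]
    exact Submodule.finrank_le _
  exfalso
  push Not at hnil
  obtain ⟨Y, hY, hna⟩ := id hns
  have hY0 : Y ≠ 0 := by
    rintro rfl
    exact hna ⟨0, fun u => by simp⟩
  have hnt : Nontrivial V := by
    apply Module.nontrivial_of_finrank_pos (R := K)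
    rw [hd]
    norm_num
  obtain ⟨y, hy⟩ := plane_sq halt hnd hd (hsp Y hY)
  have hy0 : y ≠ 0 := by
    rintro rfl
    refine hnil Y hY hY0 (LinearMap.ext fun u => ?_)
    rw [Module.End.mul_apply, hy, zero_smul, LinearMap.zero_apply]
  obtain ⟨ζ, hζ⟩ := Module.End.exists_eigenvalue Y
  obtain ⟨e, he⟩ := hζ.exists_hasEigenvector
  refine eig_false r hirr hconj hns e he.2 fun Z hZ => ?_
  obtain ⟨z, hz⟩ := plane_sq halt hnd hd (hsp Z hZ)
  obtain ⟨w, hw⟩ := plane_sq halt hnd hd (hsp (Y + Z) (𝔥.add_mem hY hZ))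
  -- a root of the quadratic equation
  obtain ⟨a, ha⟩ : ∃ a : K, y * a ^ 2 + (w - y - z) * a + z = 0 := by
    obtain ⟨δ, hδ⟩ := IsAlgClosed.exists_pow_nat_eq ((w - y - z) ^ 2 - 4 * y * z) (n := 2)
      (by norm_num)
    refine ⟨(-(w - y - z) + δ) / (2 * y), ?_⟩
    field_simp
    linear_combination hδ
  have hcr : ∀ u, Y (Z u) + Z (Y u) = (w - y - z) • u := by
    intro u
    have h4 := hw u
    simp only [LinearMap.add_apply, map_add] at h4
    rw [hy, hz] at h4
    have h5 : Y (Z u) + Z (Y u) = (y • u + Z (Y u) + (Y (Z u) + z • u)) - y • u - z • u := by abel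
    have h6 : y • u + Z (Y u) + (Y (Z u) + z • u) = w • u := by
      rw [← h4]
    rw [h5, h6]
    module
  have hsq : (a • Y + Z) * (a • Y + Z) = 0 := by
    refine LinearMap.ext fun u => ?_
    simp only [Module.End.mul_apply, LinearMap.add_apply, LinearMap.smul_apply, map_add, map_smul,
      LinearMap.zero_apply]
    rw [hy, hz]
    have h5 : a • (a • y • u + Z (Y u)) + (a • Y (Z u) + z • u) =
        (y * a ^ 2 + z) • u + a • (Y (Z u) + Z (Y u)) := by module
    have h7 : y * a ^ 2 + z + a * (w - y - z) = 0 := by linear_combination ha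
    rw [h5, hcr, smul_smul, ← add_smul, h7, zero_smul]
  have h0 : a • Y + Z = 0 := by
    by_contra hne
    exact hnil _ (𝔥.add_mem (𝔥.smul_mem a hY) hZ) hne hsq
  refine ⟨-a * ζ, ?_⟩
  have h8 : Z e = -(a • Y e) := by
    have h9 := congrArg (fun T : Module.End K V => T e) h0
    simp only [LinearMap.add_apply, LinearMap.smul_apply, LinearMap.zero_apply] at h9
    exact eq_neg_of_add_eq_zero_right h9
  rw [h8, he.apply_eq_smul]
  module

end Pool.Agent.W5h27.BR
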