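import Mathlib
import Pool.Agent.W5h27.BR.Final
import Pool.Agent.W5h27.BR.Norm
import Pool.Agent.W5h27.BR.Two

/-!
# Tate classes and elements with a fixed space of codimension at most two
-/

set_option autoImplicit false

namespace Pool.Agent.W5h27.BR

open Module Pool.Agent.H204R3.SP Pool.Agent.H204R3.GP Pool.Agent.W522.U Pool.Agent.TH118.WC
open Pool.Agent.TH118.CR Pool.Agent.TH118.CU Pool.Agent.W529.Ta Pool.Agent.W528.Odd

/-- The space is the sum of the strongly irreducible subspaces `E i`, all of dimension at least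
two. -/
def SISum {K : Type} [Field K] {X : Type} [AddCommGroup X] [Module K X]
    {Γ : Type} [Group Γ] (R : Representation K Γ X) {I : Type} (E : I → Submodule K X) : Prop :=
  (∀ i, SI R (E i)) ∧ (∀ i, 2 ≤ finrank K (E i)) ∧ ⨆ i, E i = ⊤

/-- For each `i` the form is nonzero on `E i`, and if the dimension of `E i` is larger than two then
there is an element of the group which acts on `E i` as a scalar times a symplectic transformation
`t` with `t - 1` of rank at most two and `t ^ 2` not the identity; if `t ^ 3` is the identity then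
the dimension of `E i` is at least five. -/
def HasSmall {K : Type} [Field K] {X : Type} [AddCommGroup X] [Module K X]
    {Γ : Type} [Group Γ] (R : Representation K Γ X) (χ : Γ →* K) (ω : X →ₗ[K] X →ₗ[K] K) {I : Type}
    (E : I → Submodule K X) : Prop :=
  ∀ i, (∃ u ∈ E i, ∃ v ∈ E i, ω u v ≠ 0) ∧ (2 < finrank K (E i) →
    ∃ (γ : Γ) (c : K) (t : End K X), c ^ 2 = χ γ ∧
      (∀ u ∈ E i, t u ∈ E i ∧ R γ u = c • t u) ∧ finrank K ((E i).map (t - 1)) ≤ 2 ∧
      (∃ u ∈ E i, t (t u) ≠ u) ∧ ((∀ u ∈ E i, t (t (t u)) = u) → 5 ≤ finrank K (E i)))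

variable {K : Type} [Field K] [CharZero K] {X : Type} [AddCommGroup X]
  [Module K X] [FiniteDimensional K X] {Γ : Type} [Group Γ] {R : Representation K Γ X}
  {χ : Γ →* K} {I : Type} {E : I → Submodule K X}

/-- The restrictions to one strongly irreducible subspace. -/
theorem full_resS [IsAlgClosed K] (ω : X →ₗ[K] X →ₗ[K] K) (halt : ∀ v, ω v v = 0)
    (hnd : ∀ u, (∀ v, ω u v = 0) → u = 0)
    (hωR : ∀ g u v, ω (R g u) (R g v) = χ g * ω u v) (hss : HasProj R) {U : Submodule K X}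
    (hU : SI R U) (hd : 2 ≤ finrank K U) (h0 : ∃ u ∈ U, ∃ v ∈ U, ω u v ≠ 0)
    (hsm : 2 < finrank K U → ∃ (γ : Γ) (c : K) (t : End K X), c ^ 2 = χ γ ∧
      (∀ u ∈ U, t u ∈ U ∧ R γ u = c • t u) ∧ finrank K (U.map (t - 1)) ≤ 2 ∧
      (∃ u ∈ U, t (t u) ≠ u) ∧ ((∀ u ∈ U, t (t (t u)) = u) → 5 ≤ finrank K U))
    (hns : ∃ Y ∈ lieT R χ, ¬∃ a : K, ∀ u ∈ U, Y u = a • u) :
    (∀ u ∈ U, (∀ v ∈ U, ω v u = 0) → u = 0) ∧
    ∀ u ∈ U, ∀ v ∈ U, ∃ N ∈ lieT R χ, ∀ x ∈ U, N x = ω u x • v + ω v x • u := by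
  have hanti := alt_anti halt
  have hst : ∀ Y ∈ lieT R χ, ∀ u ∈ U, Y u ∈ U := fun Y hY => lieT_stable ω hnd hωR hss hU.2.1 hY
  have hleft := du_left (R := R) (χ := χ) (B := ω) (Δ := ⊤) hU hU.2.1 inferInstance
    h0 (fun g _ u _ v _ => hωR g u v)
  have hndU : ∀ u ∈ U, (∀ v ∈ U, ω v u = 0) → u = 0 := by
    intro u hu h
    refine hleft u hu fun v hv => ?_
    rw [hanti, h v hv, neg_zero]
  refine ⟨hndU, ?_⟩
  obtain ⟨D, hD, hDU⟩ := id hU.2.1
  let Δ : Subgroup Γ := stb R U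
  have hUΔ : ∀ g ∈ Δ, ∀ u ∈ U, R g u ∈ U := fun g hg => hg
  have hΔ : Δ.FiniteIndex := Subgroup.finiteIndex_of_le (H := D) (fun g hg => hDU g hg)
  -- the data on `U`
  have halt' : ∀ v, rom ω U v v = 0 := fun v => halt v
  have hnd' : ∀ u, (∀ v, rom ω U v u = 0) → u = 0 := by
    intro u hu
    apply Subtype.ext
    exact hndU u u.2 fun v hv => hu ⟨v, hv⟩
  have hsim' : ∀ s u v, rom ω U (resR R Δ U hUΔ s u) (resR R Δ U hUΔ s v) =
      (χ.comp Δ.subtype) s * rom ω U u v := fun s u v => hωR s.1 u v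
  have hbr' : ∀ X ∈ img (lieT R χ) U, ∀ Y ∈ img (lieT R χ) U, X * Y - Y * X ∈
      img (lieT R χ) U := by
    rintro Z ⟨Y, hY, hYZ⟩ Z' ⟨Y', hY', hYZ'⟩
    refine ⟨Y * Y' - Y' * Y, lieT_bracket R χ hY hY', fun x => ?_⟩
    rw [LinearMap.sub_apply, Module.End.mul_apply, Module.End.mul_apply, Submodule.coe_sub, hYZ,
      hYZ', hYZ', hYZ]
    rfl
  have hconj' : ∀ s : Δ, ∀ X ∈ img (lieT R χ) U, resR R Δ U hUΔ s * X * resR R Δ U hUΔ s⁻¹ ∈
      img (lieT R χ) U := by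
    rintro s Z ⟨Y, hY, hYZ⟩
    refine ⟨R s * Y * R s⁻¹, lieT_conj R χ s.1 hY, fun x => ?_⟩
    rw [Module.End.mul_apply, Module.End.mul_apply, resR_apply, hYZ, resR_apply]
    rfl
  have hsp' : ∀ X ∈ img (lieT R χ) U, ∀ u w, rom ω U (X u) w + rom ω U u (X w) = 0 := by
    rintro Z ⟨Y, hY, hYZ⟩ u w
    rw [rom_apply, rom_apply, hYZ, hYZ]
    exact lieT_sp R χ ω hωR hY u w
  have hns' : ∃ Y ∈ img (lieT R χ) U, ¬∃ a : K, ∀ u, Y u = a • u := by
    obtain ⟨Y, hY, hna⟩ := hns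
    refine ⟨Y.restrict (hst Y hY), ⟨Y, hY, fun x => rfl⟩, ?_⟩
    rintro ⟨a, ha⟩
    apply hna
    refine ⟨a, fun u hu => ?_⟩
    have h3 := congrArg Subtype.val (ha ⟨u, hu⟩)
    exact h3
  have hfull : ∀ u v, SS (rom ω U) u v ∈ img (lieT R χ) U := by
    by_cases hd2 : finrank K U = 2
    · exact full_two (resR R Δ U hUΔ) (χ.comp Δ.subtype) halt' hnd' hsim' (sIrr_res hU Δ hΔ hUΔ)
        hbr' hconj' hsp' hns' hd2
    obtain ⟨γ, c, t, hc, ht, hrk, h2, h3⟩ := hsm (by omega)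
    have hγΔ : γ ∈ Δ := by
      intro u hu
      rw [(ht u hu).2]
      exact U.smul_mem _ (ht u hu).1
    have hc0 : c ^ 2 ≠ 0 := by
      rw [hc]
      exact χne (χ := χ) γ
    have hN : ∀ u ∈ U, (t - 1) u ∈ U := by
      intro u hu
      rw [LinearMap.sub_apply, Module.End.one_apply]
      exact U.sub_mem (ht u hu).1 hu
    let N : End K U := (t - 1).restrict hN
    have hNt : ∀ u : U, ((u + N u : U) : X) = t u := by
      intro u
      have h4 : ((N u : U) : X) = t u - u := rfl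
      rw [Submodule.coe_add, h4]
      abel
    have hsymp : ∀ u ∈ U, ∀ w ∈ U, ω (t u) (t w) = ω u w := by
      intro u hu w hw
      have h4 := hωR γ u w
      rw [(ht u hu).2, (ht w hw).2, map_smul, map_smul, LinearMap.smul_apply, ← hc] at h4
      simp only [smul_eq_mul] at h4
      have h5 : c ^ 2 * ω (t u) (t w) = c ^ 2 * ω u w := by linear_combination h4
      exact mul_left_cancel₀ hc0 h5
    have hrk' : finrank K (LinearMap.range N) ≤ 2 := by
      have h4 : (LinearMap.range N).map U.subtype = U.map (t - 1) := by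
        apply le_antisymm
        · rintro _ ⟨_, ⟨u, rfl⟩, rfl⟩
          exact ⟨u, u.2, rfl⟩
        · rintro _ ⟨u, hu, rfl⟩
          exact ⟨N ⟨u, hu⟩, ⟨⟨u, hu⟩, rfl⟩, rfl⟩
      rw [← h4, Submodule.finrank_map_subtype_eq] at hrk
      exact hrk
    refine full_small (resR R Δ U hUΔ) (χ.comp Δ.subtype) halt' hnd' hsim'
      (sIrr_res hU Δ hΔ hUΔ) hbr' hconj' hsp' hns' (γ := ⟨γ, hγΔ⟩) (c := c) (N := N)
      (fun u => Subtype.ext ?_) (fun u w => ?_) hrk' ?_ (by omega) ?_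
    · rw [Submodule.coe_smul, hNt, resR_apply]
      exact (ht u u.2).2
    · rw [rom_apply, rom_apply, hNt, hNt]
      exact hsymp u u.2 w w.2
    · intro hcon
      obtain ⟨u, hu, hne⟩ := h2
      apply hne
      have h4 := congrArg Subtype.val (hcon ⟨u, hu⟩)
      rw [hNt, hNt] at h4
      exact h4
    · intro hcon
      apply h3
      intro u hu
      have h4 := congrArg Subtype.val (hcon ⟨u, hu⟩)
      rw [hNt, hNt, hNt] at h4
      exact h4
  intro u hu v hv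
  obtain ⟨N, hN, hNx⟩ := hfull ⟨u, hu⟩ ⟨v, hv⟩
  refine ⟨N, hN, fun x hx => ?_⟩
  rw [← hNx ⟨x, hx⟩]
  rfl

/-- Every strongly irreducible subspace is potentially isomorphic to a given one. -/
theorem exists_isoS (hss : HasProj R) (hE : SISum R E) {U : Submodule K X}
    (hU : SI R U) : ∃ i, Tw R (fun _ => 1) U (E i) := by
  obtain ⟨Δ, hΔ, hst⟩ := hU.2.1
  obtain ⟨p, hp1, hp2, hp3⟩ := hss Δ hΔ U hst
  by_contra hcon
  push Not at hcon
  have h0 : ∀ i, ∀ u ∈ E i, p u = 0 := by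
    intro i
    by_contra h1
    push Not at h1
    obtain ⟨u, hu, hu0⟩ := h1
    refine hcon i (Tw.symm1 (hE.1 i) hU ⟨Δ, hΔ, p, fun u _ => hp1 u, ⟨u, hu, hu0⟩, ?_⟩)
    intro g hg u _
    rw [one_smul]
    exact hp3 g hg u
  have h1 : (⊤ : Submodule K X) ≤ LinearMap.ker p := by
    rw [← hE.2.2, iSup_le_iff]
    exact fun i u hu => h0 i u hu
  obtain ⟨u, hu, hu0⟩ := Submodule.exists_mem_ne_zero_of_ne_bot hU.1
  apply hu0
  rw [← hp2 u hu]
  exact h1 Submodule.mem_top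

/-- **The main theorem over an algebraically closed field.** -/
theorem small_pt [IsAlgClosed K] (ω : X →ₗ[K] X →ₗ[K] K) (halt : ∀ v, ω v v = 0)
    (hnd : ∀ u, (∀ v, ω u v = 0) → u = 0)
    (hωR : ∀ g u v, ω (R g u) (R g v) = χ g * ω u v) (hss : HasProj R)
    (hE : SISum R E) (hbi : HasSmall R χ ω E) (hF : HasFrobenii R E)
    {m : ℕ} (φ : MultilinearMap K (fun _ : Fin m × Fin 2 => X) K) (hφ : IsTate R χ m φ) :
    φ ∈ Submodule.span K (PT R χ m) := by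
  have hst : ∀ j, ∀ Y ∈ lieT R χ, ∀ u ∈ E j, Y u ∈ E j := fun j Y hY =>
    lieT_stable ω hnd hωR hss (hE.1 j).2.1 hY
  have hres : ∀ i, (∀ u ∈ E i, (∀ v ∈ E i, ω v u = 0) → u = 0) ∧
      ∀ u ∈ E i, ∀ v ∈ E i, ∃ N ∈ lieT R χ, ∀ x ∈ E i, N x = ω u x • v + ω v x • u := by
    intro i
    obtain ⟨h0, hsm⟩ := hbi i
    obtain ⟨F, b, hb, u, hu, v, hv, hu0, hv0, al, be, hal, hbe, hab⟩ := hF i
    refine full_resS ω halt hnd hωR hss (hE.1 i) (hE.2.1 i) h0 hsm ?_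
    obtain ⟨Y, hY, s, t, hst', hYu, hYv⟩ := exists_nonscalar R χ F b hb hu0 hv0 hal hbe hab
    refine ⟨Y, hY, ?_⟩
    rintro ⟨a, ha⟩
    apply hst'
    have h3 : s = a := by
      have h4 : (s - a) • u = 0 := by rw [sub_smul, ← hYu, ha u hu, sub_self]
      exact sub_eq_zero.1 ((smul_eq_zero.1 h4).resolve_right hu0)
    have h5 : t = a := by
      have h4 : (t - a) • v = 0 := by rw [sub_smul, ← hYv, ha v hv, sub_self]
      exact sub_eq_zero.1 ((smul_eq_zero.1 h4).resolve_right hv0)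
    rw [h3, h5]
  have hN : ∀ i, ∃ N ∈ lieT R χ, N * N = 0 ∧ finrank K ((E i).map N) = 1 := fun i =>
    exists_rank_one halt hst (fun Y hY Z hZ => lieT_bracket R χ hY hZ)
      (fun Y hY u v => lieT_sp R χ ω hωR hY u v) (fun j => (hres j).1) (fun j => (hres j).2)
      hE.2.2 i (hE.1 i).1
  have hself : ∀ i, ∃ u ∈ E i, ∃ v ∈ E i, ω u v ≠ 0 := fun i => (hbi i).1
  have hsd : ∀ U, SI R U → Du R χ U U := by
    intro U hU
    obtain ⟨i, Δ, hΔ, T, hTU, h0, hT⟩ := exists_isoS hss hE hU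
    have hmap := tw_map hU (hE.1 i) hΔ hTU h0 hT
    obtain ⟨u, hu, v, hv, huv⟩ := hself i
    rw [← hmap] at hu hv
    obtain ⟨u', hu', rfl⟩ := hu
    obtain ⟨v', hv', rfl⟩ := hv
    refine ⟨Δ, hΔ, ω.compl₁₂ T T, ⟨u', hu', v', hv', huv⟩, fun g hg w hw w' hw' => ?_⟩
    rw [LinearMap.compl₁₂_apply, LinearMap.compl₁₂_apply, hT g hg w hw, hT g hg w' hw', one_smul,
      one_smul, hωR]
  have hdim : ∀ U, SI R U → 2 ≤ finrank K U := by
    intro U hU
    obtain ⟨i, Δ, hΔ, T, hTU, h0, hT⟩ := exists_isoS hss hE hU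
    obtain ⟨e, -⟩ := tw_equiv hU (hE.1 i) hΔ hTU h0 hT
    rw [e.finrank_eq]
    exact hE.2.1 i
  refine detProd_pt hsd φ (Pool.Agent.TH118.CU.nil_det ω hnd hωR ?_ hss ?_ ?_ φ hφ)
  · intro U hU _
    obtain ⟨i, hi⟩ := exists_isoS hss hE hU
    obtain ⟨N, hN1, hN2, hN3⟩ := hN i
    have hrk := rank_transfer ω hnd hωR hss hU (hE.1 i) hi hN1
    exact ⟨N, hN1, hN2, Or.inl (by rw [← hrk]; exact hN3)⟩
  · intro U hU h1
    have h3 := hdim U hU
    omega
  · intro U U' hU _ _ hnsd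
    exact absurd (hsd U hU) hnsd

end Pool.Agent.W5h27.BR
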