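import Pool.Agent.TH118.MT.Base
import Pool.Agent.W5h27.BR.FinalS

/-!
# The Mumford-Tate conjecture for abelian varieties with inertia elements that fix a subspace of
# codimension at most two

Let `A` be an abelian variety over a finitely generated field of complex numbers, `W = H_1(A, ℚ)`
with the polarization form `ω₀`, `T` the tangent space at the origin and `per : W → T` the inclusion;
`V = ℚ_ℓ ⊗ W` is the rational Tate module, with the action `ρ` of the Galois group `Γ` (of the
field, or of a finite extension) and the cyclotomic character `χ`.  Let `K` be the algebraic closure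
of `ℚ_ℓ` and `X = K ⊗ V`.  A subspace of `X` is *strongly irreducible* (`SI`) if it is a minimal
nonzero subspace stable under a subgroup of finite index.

Hypotheses.

* `hss`, `hF`: the theorems of Faltings (semisimplicity; the endomorphisms of `V` which commute with
  an open subgroup of the Galois group are combinations of endomorphisms of `A`).
* `hE`: `X` is the sum of strongly irreducible subspaces `E i` of dimension at least two.  If the
  endomorphism ring of `A` over the algebraic closure is `ℤ` there is just one, `E = X`;
  if the endomorphism algebra is a totally real field or a totally indefinite quaternion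
  algebra (types I and II of Albert) they correspond to the embeddings of the centre in `K`.
* `hsm`: the form is nonzero on each `E i` (so it is symplectic), and for each `i` such that the
  dimension of `E i` is not two there is an element `γ` of the group (in an inertia group, for
  instance) which acts ON THE ONE SUBSPACE `E i` as a scalar times a symplectic transformation `t`
  with `t - 1` of rank at most two; here `t` is not an involution and not the identity, and `t` is
  not of order three if the dimension of `E i` is four.
* `hfrob`: for each `i` there is a diagonalizable element of the group (a Frobenius element) with two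
  eigenvectors in `E i` such that the quotient of the eigenvalues is not a root of unity.

Theorem.  All Tate classes in all the tensor powers `(H^1)^{⊗ 2 m}(m)` are linear combinations of
Hodge classes, and even of products of Hodge classes of degree two.  Together with the theorem of Deligne
(Hodge classes are Tate classes) this is the equality of the Mumford-Tate group (over `ℚ_ℓ`) and of
the connected component of the `ℓ`-adic monodromy group: both are reductive, so that they are
determined by their invariants in the spaces `(H^1)^{⊗ 2 m}(m)`.  So the Mumford-Tate conjecture holds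
for `A`; both groups are the full centralizer of `End(A)` in the group of symplectic similitudes
(its connected component), and the Hodge and the Tate conjecture hold for all powers of `A`.

Example 1.  Let the endomorphism ring of `A` (over the algebraic closure) be `ℤ`, `A` of dimension
at least three, and let `v` be a place (a discrete valuation, of any residue characteristic different
from `ℓ`) such that the fixed space of the inertia group in `V` has codimension one or two (so
`t + 2 u ≤ 2` for the toric rank `t` and the unipotent rank `u` of the Néron model at `v`; this is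
the exponent of the conductor if the wild inertia group acts trivially).  If the image of the inertia
group is not of order two then the theorem applies.

Example 2.  `A` is the Jacobian of a curve `C` of genus at least three, with endomorphism ring `ℤ`,
which has at a place `v` a reduction with one cusp and no other singularity, such that the elliptic
tail `y ^ 2 = x ^ 3 + a x + b` given by the cusp is of any Kodaira type with additive potentially good
reduction except `I₀*`: the types `IV`, `IV*` (inertia of order three) are new.

The starting file `CuspMumfordTate` treats semisimple `t`, of finite order not divisible by three,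
or divisible by three and larger than three, with further conditions: `γ` has finite order on the whole
space and acts on all `E j` simultaneously by such transformations, none of them of order three.

Idea of the proof.  Let `L` be the Lie algebra of the operators that kill all Tate classes.  If `t` is
unipotent, `t = 1 + N`, then `N` normalizes the restriction of `L` to `E i`, which is then an ideal of
the full symplectic Lie algebra.  If `t` is of order three, with eigenvectors `e`, `f`, then the
eigencomponents of the elements of `L` on `E i` are `e w + b f²` and `f w + a e²` in `Sym²(E i)`, with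
`w` orthogonal to `e` and `f`.  Either one of them is of rank at most two and nilpotent, and then `L` is
the full symplectic Lie algebra on `E i`, or `L` preserves a space of dimension four spanned by `e`, `f`,
`w` and `w'`, on which it contains the third symmetric power of `sl₂`; its translates under the group
are equal or orthogonal to each other, so that it is potentially stable and equal to `E i`.  The last
part of the proof is a lemma of Goursat and Ribet: a minimal ideal of `L` that is nonzero on `E i`
acts on each `E j` as zero or as the full symplectic Lie algebra, faithfully, and its extremal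
elements have square zero on all `E j`.
-/

namespace Pool.Agent.Results.MP_33b3f9_ag.InertiaCodimensionTwo

open Module TensorProduct Pool.Agent.H204R3.SP Pool.Agent.H204R3.GP Pool.Agent.W522.U
open Pool.Agent.TH118.CR Pool.Agent.TH118.MT

/-- The space is the sum of the strongly irreducible subspaces `E i`, all of dimension at least
two. -/
def StronglyIrreducibleSum {K : Type} [Field K] {X : Type} [AddCommGroup X] [Module K X]
    {Γ : Type} [Group Γ] (R : Representation K Γ X) {I : Type} (E : I → Submodule K X) : Prop :=
  (∀ i, SI R (E i)) ∧ (∀ i, 2 ≤ finrank K (E i)) ∧ ⨆ i, E i = ⊤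

/-- For each `i` the form is nonzero on `E i`, and if the dimension of `E i` is larger than two then
there is an element of the group which acts on `E i` as a scalar times a symplectic transformation
`t` with `t - 1` of rank at most two and `t ^ 2` not the identity; if `t ^ 3` is the identity then
the dimension of `E i` is at least five. -/
def HasSmallElements {K : Type} [Field K] {X : Type} [AddCommGroup X] [Module K X]
    {Γ : Type} [Group Γ] (R : Representation K Γ X) (χ : Γ →* K) (ω : X →ₗ[K] X →ₗ[K] K)
    {I : Type} (E : I → Submodule K X) : Prop :=
  ∀ i, (∃ u ∈ E i, ∃ v ∈ E i, ω u v ≠ 0) ∧ (2 < finrank K (E i) →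
    ∃ (γ : Γ) (c : K) (t : End K X), c ^ 2 = χ γ ∧
      (∀ u ∈ E i, t u ∈ E i ∧ R γ u = c • t u) ∧ finrank K ((E i).map (t - 1)) ≤ 2 ∧
      (∃ u ∈ E i, t (t u) ≠ u) ∧ ((∀ u ∈ E i, t (t (t u)) = u) → 5 ≤ finrank K (E i)))

theorem result (ℓ : ℕ) [Fact ℓ.Prime]
    -- the complex abelian variety `A` with a polarization
    {W T : Type} [AddCommGroup W] [Module ℚ W] [FiniteDimensional ℚ W] [AddCommGroup T] [Module ℂ T]
    (per : W →+ T) (ω₀ : W →ₗ[ℚ] W →ₗ[ℚ] ℚ) (halt : ∀ v, ω₀ v v = 0)
    (hnondeg : ∀ u, (∀ v, ω₀ v u = 0) → u = 0) (hω₀ : IsHodgeBilinear per ω₀)
    -- the action of the Galois group on the Tate module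
    {Γ : Type} [Group Γ] (ρ : Representation ℚ_[ℓ] Γ (ℚ_[ℓ] ⊗[ℚ] W)) (χ : Γ →* ℚ_[ℓ])
    (hω : ∀ s u v, bcb ℚ_[ℓ] ω₀ (ρ s u) (ρ s v) = χ s * bcb ℚ_[ℓ] ω₀ u v)
    -- the theorems of Faltings
    (hss : FiniteIndexSemisimple ρ) (hF : FaltingsEnd per (incl ℚ_[ℓ] W) ρ)
    -- the small elements
    {I : Type} (E : I → Submodule (AlgebraicClosure ℚ_[ℓ])
      (AlgebraicClosure ℚ_[ℓ] ⊗[ℚ_[ℓ]] (ℚ_[ℓ] ⊗[ℚ] W)))
    (hE : StronglyIrreducibleSum (bcr ρ (AlgebraicClosure ℚ_[ℓ])) E)
    (hsm : HasSmallElements (bcr ρ (AlgebraicClosure ℚ_[ℓ]))
      ((algebraMap ℚ_[ℓ] (AlgebraicClosure ℚ_[ℓ])).toMonoidHom.comp χ)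
      (bcb (AlgebraicClosure ℚ_[ℓ]) (bcb ℚ_[ℓ] ω₀)) E)
    (hfrob : HasFrobenii (bcr ρ (AlgebraicClosure ℚ_[ℓ])) E) :
    MumfordTateStrong per (incl ℚ_[ℓ] W) ρ χ := by
  classical
  have hl1 : ∀ u, (∀ v, bcb ℚ_[ℓ] ω₀ u v = 0) → u = 0 :=
    fun u hu => bcb_nondeg_left ω₀ hnondeg (left_nondeg ω₀ halt hnondeg) u hu
  have hr1 : ∀ u, (∀ v, bcb ℚ_[ℓ] ω₀ v u = 0) → u = 0 :=
    fun u hu => bcb_nondeg_right ω₀ hnondeg (left_nondeg ω₀ halt hnondeg) u hu
  refine mumfordTate_of per (incl ℚ_[ℓ] W) ρ χ (bcb ℚ_[ℓ] ω₀) hl1 hω ω₀ hω₀ (fun x y => ?_) hF
    fun m φ hφ => ?_
  · rw [incl_apply, incl_apply, bcb_one, eq_ratCast]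
  · refine tate_descent_any (Ω := AlgebraicClosure ℚ_[ℓ]) (Module.finBasis ℚ_[ℓ] _) ρ χ
      (fun φ' hφ' => ?_) φ hφ
    exact Pool.Agent.W5h27.BR.small_pt (bcb (AlgebraicClosure ℚ_[ℓ]) (bcb ℚ_[ℓ] ω₀))
      (Pool.Agent.TH118.CU.bcb_alt (Ω := AlgebraicClosure ℚ_[ℓ]) (bcb ℚ_[ℓ] ω₀)
        (Pool.Agent.TH118.CU.bcb_alt (Ω := ℚ_[ℓ]) ω₀ halt))
      (fun u hu => bcb_nondeg_left (bcb ℚ_[ℓ] ω₀) hr1 hl1 u hu)
      (bcb_inv (Ω := AlgebraicClosure ℚ_[ℓ]) ρ χ (bcb ℚ_[ℓ] ω₀) hω) (hasProj_bcr ρ _ hss) hE
      hsm hfrob φ' hφ'

end Pool.Agent.Results.MP_33b3f9_ag.InertiaCodimensionTwo
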